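import Pool.Agent.H8.AP.KC
import Pool.Agent.H87.AM.Deg
import Pool.Agent.H69.AC.Cesaro

/-!
# From the adversary bound to polynomials (Cesaro averages)

See `Pool.Agent.H69.AC.adeg`, applied with `H = EuclideanSpace ℝ E`.
-/

open Finset

namespace H8AP

theorem exists_poly {n : ℕ} (F : (Fin n → Bool) → Bool) {W : ℝ} (hW : 1 ≤ W)
    (h : KC {x | F x = true} {x | F x = false} (fun _ _ => 1) W) :
    ∃ (d : ℕ) (f : (Fin n → Bool) → ℝ), (d : ℝ) ≤ 1000 * W ∧ f ∈ H87AM.Deg (Fin n) d ∧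
      (∀ x, F x = true → 7 / 8 ≤ f x ∧ f x ≤ 1) ∧
      (∀ x, F x = false → -1 ≤ f x ∧ f x ≤ -(7 / 8)) := by
  classical
  obtain ⟨E, hE, u, v, hu, hv, hk⟩ := h
  have hW0 : (0 : ℝ) ≤ W := by linarith
  have key := Pool.Agent.H69.AC.adeg (ι := Fin n) (H := EuclideanSpace ℝ E) (F := F) (W := W) hW
    (u := fun x i => if F x = true then WithLp.toLp 2 (u x i) else 0)
    (v := fun y i => if F y = false then WithLp.toLp 2 (v y i) else 0)
    (fun x => ?_) (fun y => ?_) (fun x y hx hy => ?_) (d := ⌈901 * W⌉₊) (Nat.le_ceil _)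
  · obtain ⟨f, hf, h1, h2, h3⟩ := key
    refine ⟨⌈901 * W⌉₊, f, ?_, hf, fun x hx => ⟨h2 x hx, le_of_abs_le (h1 x)⟩,
      fun x hx => ⟨neg_le_of_abs_le (h1 x), h3 x hx⟩⟩
    have := (Nat.ceil_lt_add_one (show 0 ≤ 901 * W by positivity)).le
    linarith
  · by_cases hx : F x = true
    · simp only [hx, if_true, EuclideanSpace.norm_sq_eq, Real.norm_eq_abs, sq_abs]
      exact hu x hx
    · simp [hx, hW0]
  · by_cases hy : F y = false
    · simp only [hy, if_true, EuclideanSpace.norm_sq_eq, Real.norm_eq_abs, sq_abs]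
      exact hv y hy
    · simp [hy, hW0]
  · have h1 := hk x hx y hy
    beta_reduce at h1
    rw [← h1, Finset.sum_filter]
    refine Finset.sum_congr rfl fun i _ => ?_
    by_cases h : x i = y i
    · simp [h]
    · simp [h, hx, hy, PiLp.inner_apply, mul_comm]

end H8AP
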