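import Mathlib
import Pool.Agent.H78.PL.Num5

/-!
# The numerical recursion (epochs)

PROOF (all `log` natural, `ν = 432`; `P ≤ 2^(J/10)`-type slack everywhere).  `N = 2^J P`,
`F j t = c j t / (N √2^j)`.  Rules:
 (G) `F (j+1) d ≤ F j e + ν ∑_{t ∈ Ioc e P} F j t`, `e = G j (d-1) + 1` (`432/√2 ≤ ν`);
     normal level: `G j = 1`, `e = d`.
 (DD) `F (i+s) d ≤ √2^s 216 ∑_{t ∈ Icc d P} F i t` if `G = 1` on `[i, i+s)`.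
 (FL) `F j t ≤ 72 P² (h+2).. / (N √2^j)` for `t ≥ j+2`.
SCHEDULE. `g` large constant, `κ₀` large; `J = κ₀ (log2 (h+2) + 1)` (large), `J₁ = J`,
`J_{k+1} = ⌊3 J_k/2⌋`; `G J₁ = J₁ + 2`, `G J_k = g` (k ≥ 2), else `1`.  `P = 16 (h+1) ∏_{i<h} G i`
`≤ 16 (h+1) (J+2) g^(3 log2 (h+2) + 3)`, so `P^20 ≤ 2^J` for `κ₀` large.
LEVELS `0..J₁`: `c (j+1) 1 ≤ √2 c j 1 + 432 ∑_{t ≥ 2} c j t` and (DD) from `i = 0`, (FL) at `j = 0`: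
`∑_{t≥2} c j t ≤ P 2^j 216 P · 36 (P+2) P`; so `F (J₁+1) 1 ≤ 1 + C P^4 2^(J/2)/N ≤ 1 + 2^(-J/4)`.
AFTER a special level `J = J_k` (write `J` for it):
 (1) `F (J+1) d ≤ (1+ν)(J+1) exp(-c₀ √(g J (d-1))) + 2^(-J/2)` for `2 ≤ d`
     (k = 1: `e = (J₁+2)(d-1)+1 ≥ J₁+3`, only (FL); k ≥ 2: (G), (I_k) for `t ≤ J+1`, (FL) beyond);
 (2) `F (J+1) d ≤ 2^(-J/2) 2^(-J/4)..` for `d > D := ⌈(J+1)/g⌉` ((FL) only).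
EPOCH `J < j ≤ J' = J_{k+1}`: far field `t > D`: (DD): `F j t ≤ 2^(-J/4)`, `B = ∑_{t>D} F j t ≤ 2^(-J/4)`.
Near field `d ≤ D`: `F (j+1) d ≤ F j d + ν ∑_{d<t≤D} F j t + ν B`.  `W 0 k = [k = 0]`,
`W (s+1) k = W s k + ν ∑_{k'<k} W s k'`;  `W s k ≤ λ^k (1 + ν/(λ-1))^s` for `λ > 1` (induction);
with `λ = J/k ≥ 2`, `s ≤ J/2`: `W s k ≤ (J/k)^k exp(ν k)`.
`F (J+1+s) d ≤ ∑_{t=d}^{D} W s (t-d) F (J+1) t + ν B ∑_{s'<s} ∑_{k ≤ D} W s' k` (induction).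
`k log(e^ν J/k) ≤ τ √(J k)` for `k ≤ J/g`, `τ = ν g^(-1/2) + 4 g^(-1/4)` (from `log z ≤ 4 z^(1/4)`).
`c₀ = 4 τ/√g` (so `c₀ → 0` as `g → ∞`): `τ √(J(m+k)) = (c₀ √g/4) √(J(m+k))`, `m = d-1 ≥ 1`, and
`(3/4) c₀ √g √(J(m+k)) ≥ c₀ √(3/2 J m) + log(C J^3)` for `J` large.
Result (I_{k+1}): `F j t ≤ exp(-c₀ √(J' min(t-1, J')))` for all `t ≥ 2`, `J < j ≤ J'`.
END: `F (j+1) 1 ≤ F j 1 + ν ∑_{t≥2} F j t`; total increase `≤ ∑_k J_k² · 2ν exp(-c₀ √J_k) ≤ 1`.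
-/

open Finset

namespace H8AP

/-- The numerical part: a schedule `G` with polylogarithmic product for which the recursion of the
threshold costs gives `c h 1 ≤ 3 N₀ √2 ^ h`. -/
theorem numeric : ∃ κ : ℕ, ∀ h : ℕ, ∃ (J P : ℕ) (G : ℕ → ℕ),
    (∀ j, 1 ≤ G j) ∧ P = 16 * (h + 1) * ∏ i ∈ Finset.range h, G i ∧
    2 ^ J * P ≤ (h + 2) ^ κ ∧
    ∀ c : ℕ → ℕ → ℝ, (∀ j t, 0 ≤ c j t) →
      (∀ j d, 1 ≤ d → c (j + 1) d ≤ √2 * c j (G j * (d - 1) + 1) +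
        432 * ∑ t ∈ Finset.Ioc (G j * (d - 1) + 1) P, c j t) →
      (∀ i s d, (∀ l, i ≤ l → l < i + s → G l = 1) → 2 ≤ d →
        c (i + s) d ≤ 2 ^ s * (216 * ∑ t ∈ Finset.Icc d P, c i t)) →
      (∀ j t, j + 2 ≤ t → c j t ≤ 36 * (P + j + 2) * P) →
      c 0 1 ≤ 2 ^ J * P →
      c h 1 ≤ 3 * (2 ^ J * P) * √2 ^ h :=
  Pool.Agent.H78.PL.numeric

end H8AP
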