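import Pool.Agent.H8.AP.NodeD

/-!
# Location separates; location at a normal level; (L2) one step

PROOFS. `Bdd.step`, `Cost.of_gt`: arithmetic (in `Cost.of_gt` one of the two sets is empty).
`Loc.cost`: for `θ + (d+1) ≤ V x`, `V y ≤ θ` the supports of `φ x`, `φ y` are disjoint, so the kernel
`1 - ∑ φ φ` is `1` there.
`loc_prod`: labels `L × L`, `φ' x (l, m) = φ (x ∘ inl) l * φ (x ∘ inr) m`;
`1 - ⟨φ', φ'⟩ = (1 - ⟨φ_z, φ_z'⟩) + ⟨φ_z, φ_z'⟩ (1 - ⟨φ_w, φ_w'⟩)`, second term by `KC.mul`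
(multiplier of norm `1`), both by `KC.comap Sum.inl` / `Sum.inr`.
`Loc.step_one`: window of `(l, m)` is `(a l + a m) / 2`.
`Cost.step` (e = g(d-1)+1): `1 = (1 - ⟨φ', φ'⟩) + ∑ k, φ' x k φ' y k * 1`, `KC.add`, `KC.lab` with
labels `k = (l, m)`: in the chart `[a, a+e] × [b, b+e]` (a = a l, b = a m, z = V (x ∘ inl), w = ..,
S = z + w), lower set `S ≤ s₀ := 2 g θ + 2 g - 1` (this is `V' ≤ θ`), upper set `s₀ + 2 e - 1 ≤ S`
(this is `θ + d ≤ V'`).  Cases: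
 `s₀ < a + b`: lower set empty.  `s₀ > a + b + 1`: upper set empty (S ≤ a + b + 2e).
 `s₀ = a + b`: lower: `z = a` and `w = b`, so `z ≤ a, w ≤ b`; upper: `S ≥ a+b+2e-1`, so `z ≥ a+e` or
   `w ≥ b+e`: `KC.or`.   `s₀ = a + b + 1`: upper: `z ≥ a+e` and `w ≥ b+e`; lower: `z ≤ a` or `w ≤ b`:
   `KC.and`.   Both cost `√2 * c`.
-/

open Finset

namespace H8AP

variable {N : Node} {d P g : ℕ} {c l : ℝ}

theorem Bdd.step (h : Bdd N P) (hg : 1 ≤ g) : Bdd (N.step g) P := by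
  intro (x : N.ι ⊕ N.ι → Bool)
  have h1 := h (x ∘ Sum.inl)
  have h2 := h (x ∘ Sum.inr)
  have hg' : (0 : ℤ) < 2 * (g : ℤ) := by positivity
  have hg1 : (1 : ℤ) ≤ (g : ℤ) := by exact_mod_cast hg
  constructor
  · change 0 ≤ (N.V (x ∘ Sum.inl) + N.V (x ∘ Sum.inr)) / (2 * (g : ℤ))
    exact Int.ediv_nonneg (by omega) hg'.le
  · change (N.V (x ∘ Sum.inl) + N.V (x ∘ Sum.inr)) / (2 * (g : ℤ)) ≤ P
    have h3 : (N.V (x ∘ Sum.inl) + N.V (x ∘ Sum.inr)) ≤ (P : ℤ) * (2 * (g : ℤ)) := by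
      have : (P : ℤ) * (2 * (g : ℤ)) ≥ (P : ℤ) * 2 := by
        apply mul_le_mul_of_nonneg_left _ (by positivity)
        omega
      linarith [h1.2, h2.2]
    exact Int.ediv_le_of_le_mul hg' h3

/-- Values above `P` do not occur. -/
theorem Cost.of_gt {t : ℕ} (hP : Bdd N P) (ht : P < t) (hc : 0 ≤ c) : Cost N t c := by
  intro θ
  by_cases hθ : 0 ≤ θ
  · refine KC.of_empty_left hc ?_
    ext x
    simp only [Set.mem_ofPred_eq, Set.mem_empty_iff_false, iff_false, not_le]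
    have := (hP x).2
    have ht' : (P : ℤ) < (t : ℤ) := by exact_mod_cast ht
    omega
  · refine KC.of_empty_right hc ?_
    ext x
    simp only [Set.mem_ofPred_eq, Set.mem_empty_iff_false, iff_false, not_le]
    have := (hP x).1
    omega

/-- Location in windows of length `d` separates values at distance `d + 1`. -/
theorem Loc.cost (h : Loc N d c) : Cost N (d + 1) c := by
  obtain ⟨L, hL, a, φ, h1, h2, h3⟩ := h
  intro θ
  refine (h3.mono (Set.subset_univ _) (Set.subset_univ _) le_rfl).congr ?_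
  intro x hx y hy
  simp only [Set.mem_ofPred_eq] at hx hy
  have : ∑ l, φ x l * φ y l = 0 := by
    refine Finset.sum_eq_zero fun l _ => ?_
    by_contra hne
    have hx0 : φ x l ≠ 0 := fun h => hne (by rw [h, zero_mul])
    have hy0 : φ y l ≠ 0 := fun h => hne (by rw [h, mul_zero])
    have hx1 := h2 x l hx0
    have hy1 := h2 y l hy0
    push_cast at hx
    omega
  rw [this, sub_zero]

/-- Product of the locations of the two children. -/
theorem loc_prod (hc : 0 ≤ c) (h : Loc N d c) :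
    ∃ (L : Type) (_ : Fintype L) (a b : L → ℤ) (φ : (N.ι ⊕ N.ι → Bool) → L → ℝ),
    (∀ x, ∑ l, (φ x l) ^ 2 = 1) ∧
    (∀ x l, φ x l ≠ 0 → (a l ≤ N.V (x ∘ Sum.inl) ∧ N.V (x ∘ Sum.inl) ≤ a l + d) ∧
      (b l ≤ N.V (x ∘ Sum.inr) ∧ N.V (x ∘ Sum.inr) ≤ b l + d)) ∧
    KC Set.univ Set.univ (fun x y => 1 - ∑ l, φ x l * φ y l) (2 * c) := by
  obtain ⟨L, hL, a, φ, h1, h2, h3⟩ := h
  refine ⟨L × L, inferInstance, fun l => a l.1, fun l => a l.2,
    fun x l => φ (x ∘ Sum.inl) l.1 * φ (x ∘ Sum.inr) l.2, fun x => ?_, fun x l hl => ?_, ?_⟩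
  · simp_rw [mul_pow, Fintype.sum_prod_type, ← Finset.mul_sum, h1, mul_one]
    exact h1 _
  · exact ⟨h2 _ _ (left_ne_zero_of_mul hl), h2 _ _ (right_ne_zero_of_mul hl)⟩
  · have k1 : KC (ι := N.ι ⊕ N.ι) Set.univ Set.univ
        (fun x y => 1 - ∑ l, φ (x ∘ Sum.inl) l * φ (y ∘ Sum.inl) l) c :=
      (h3.comap (Sum.inl : N.ι → N.ι ⊕ N.ι)).mono (by simp) (by simp) le_rfl
    have k2 : KC (ι := N.ι ⊕ N.ι) Set.univ Set.univ
        (fun x y => 1 - ∑ l, φ (x ∘ Sum.inr) l * φ (y ∘ Sum.inr) l) c :=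
      (h3.comap (Sum.inr : N.ι → N.ι ⊕ N.ι)).mono (by simp) (by simp) le_rfl
    have k3 := KC.mul (A := Set.univ) (B := Set.univ)
      (fun x l => φ (x ∘ (Sum.inl : N.ι → N.ι ⊕ N.ι)) l)
      (fun x l => φ (x ∘ (Sum.inl : N.ι → N.ι ⊕ N.ι)) l) (m := 1) zero_le_one hc
      (fun x _ => (h1 _).le) (fun x _ => (h1 _).le) k2
    have k4 := k1.add k3
    refine (k4.congr ?_).mono subset_rfl subset_rfl (by linarith)
    intro x _ y _
    have e1 : ∑ l : L × L, φ (x ∘ Sum.inl) l.1 * φ (x ∘ Sum.inr) l.2 *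
        (φ (y ∘ Sum.inl) l.1 * φ (y ∘ Sum.inr) l.2) =
        (∑ l, φ (x ∘ Sum.inl) l * φ (y ∘ Sum.inl) l) *
          ∑ l, φ (x ∘ Sum.inr) l * φ (y ∘ Sum.inr) l := by
      rw [Finset.sum_mul_sum, Fintype.sum_prod_type]
      refine Finset.sum_congr rfl fun i _ => Finset.sum_congr rfl fun j _ => ?_
      ring
    rw [e1]
    ring

/-- Location costs at most double at a normal level. -/
theorem Loc.step_one (hc : 0 ≤ c) (h : Loc N d c) : Loc (N.step 1) d (2 * c) := by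
  obtain ⟨L, hL, a, b, φ, h1, h2, h3⟩ := loc_prod hc h
  refine ⟨L, hL, fun l => (a l + b l) / 2, φ, h1, fun (x : N.ι ⊕ N.ι → Bool) l hl => ?_, h3⟩
  have := h2 x l hl
  change (a l + b l) / 2 ≤ (N.V (x ∘ Sum.inl) + N.V (x ∘ Sum.inr)) / (2 * ((1 : ℕ) : ℤ)) ∧
    (N.V (x ∘ Sum.inl) + N.V (x ∘ Sum.inr)) / (2 * ((1 : ℕ) : ℤ)) ≤ (a l + b l) / 2 + d
  push_cast
  omega

/-- (L2) one step. -/
theorem Cost.step (hg : 1 ≤ g) (hd : 1 ≤ d) (hc : 0 ≤ c) (hl : 0 ≤ l)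
    (h : Cost N (g * (d - 1) + 1) c) (hL : Loc N (g * (d - 1) + 1) l) :
    Cost (N.step g) d (√2 * c + 2 * l) := by
  obtain ⟨L, _, a, b, φ, h1, h2, h3⟩ := loc_prod hl hL
  intro θ
  have hs : 0 ≤ √2 * c := mul_nonneg (Real.sqrt_nonneg _) hc
  obtain ⟨e, he⟩ : ∃ e : ℤ, e = (((g * (d - 1) + 1 : ℕ)) : ℤ) := ⟨_, rfl⟩
  have hg1 : (1 : ℤ) ≤ (g : ℤ) := by exact_mod_cast hg
  have hd1 : (1 : ℤ) ≤ (d : ℤ) := by exact_mod_cast hd
  have he' : e = (g : ℤ) * ((d : ℤ) - 1) + 1 := by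
    rw [he]; push_cast [Nat.cast_sub hd]; ring
  have e1 : 1 ≤ e := by
    rw [he']
    have : 0 ≤ (g : ℤ) * ((d : ℤ) - 1) := mul_nonneg (by omega) (by omega)
    omega
  -- the upper and lower sets in terms of the sum
  have hup : ∀ x : N.ι ⊕ N.ι → Bool, θ + d ≤ (N.step g).V x →
      (2 * g * θ + 2 * g - 1) + 2 * e - 1 ≤ N.V (x ∘ Sum.inl) + N.V (x ∘ Sum.inr) := by
    intro x hx
    have hx' : θ + d ≤ (N.V (x ∘ Sum.inl) + N.V (x ∘ Sum.inr)) / (2 * (g : ℤ)) := hx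
    have := (Int.le_ediv_iff_mul_le (by omega : (0 : ℤ) < 2 * (g : ℤ))).1 hx'
    rw [he']
    linarith [this]
  have hlo : ∀ x : N.ι ⊕ N.ι → Bool, (N.step g).V x ≤ θ →
      N.V (x ∘ Sum.inl) + N.V (x ∘ Sum.inr) ≤ 2 * g * θ + 2 * g - 1 := by
    intro x hx
    have hx' : (N.V (x ∘ Sum.inl) + N.V (x ∘ Sum.inr)) / (2 * (g : ℤ)) < θ + 1 :=
      Int.lt_add_one_iff.2 hx
    have := (Int.ediv_lt_iff_lt_mul (by omega : (0 : ℤ) < 2 * (g : ℤ))).1 hx'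
    have h5 : (θ + 1) * (2 * (g : ℤ)) = 2 * g * θ + 2 * g := by ring
    omega
  obtain ⟨s, hs0⟩ : ∃ s : ℤ, s = 2 * g * θ + 2 * g - 1 := ⟨_, rfl⟩
  rw [← hs0] at hup hlo
  have key : KC {x | θ + d ≤ (N.step g).V x} {x | (N.step g).V x ≤ θ}
      (fun x y => ∑ k, φ x k * φ y k * 1) (√2 * c) := by
    refine KC.lab φ φ hs (fun x _ => (h1 x).le) (fun x _ => (h1 x).le) (fun _ _ _ => 1) ?_
    intro k
    have hA : ∀ x : N.ι ⊕ N.ι → Bool, x ∈ {x | x ∈ {x | θ + d ≤ (N.step g).V x} ∧ φ x k ≠ 0} →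
        s + 2 * e - 1 ≤ N.V (x ∘ Sum.inl) + N.V (x ∘ Sum.inr) ∧
        (a k ≤ N.V (x ∘ Sum.inl) ∧ N.V (x ∘ Sum.inl) ≤ a k + e) ∧
        (b k ≤ N.V (x ∘ Sum.inr) ∧ N.V (x ∘ Sum.inr) ≤ b k + e) := by
      intro x hx
      refine ⟨hup x hx.1, ?_⟩
      rw [he]
      exact h2 x k hx.2
    have hB : ∀ x : N.ι ⊕ N.ι → Bool, x ∈ {x | x ∈ {x | (N.step g).V x ≤ θ} ∧ φ x k ≠ 0} →
        N.V (x ∘ Sum.inl) + N.V (x ∘ Sum.inr) ≤ s ∧
        (a k ≤ N.V (x ∘ Sum.inl) ∧ N.V (x ∘ Sum.inl) ≤ a k + e) ∧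
        (b k ≤ N.V (x ∘ Sum.inr) ∧ N.V (x ∘ Sum.inr) ≤ b k + e) := by
      intro x hx
      refine ⟨hlo x hx.1, ?_⟩
      rw [he]
      exact h2 x k hx.2
    rcases lt_or_ge s (a k + b k) with h6 | h6
    · refine KC.of_empty_right hs ?_
      refine Set.eq_empty_of_forall_notMem fun (x : N.ι ⊕ N.ι → Bool) hx => ?_
      have h9 := hB x hx
      omega
    · rcases lt_or_ge (a k + b k + 1) s with h7 | h7
      · refine KC.of_empty_left hs ?_
        refine Set.eq_empty_of_forall_notMem fun (x : N.ι ⊕ N.ι → Bool) hx => ?_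
        have h9 := hA x hx
        omega
      · have c1 := h (a k)
        have c2 := h (b k)
        rw [← he] at c1 c2
        rcases eq_or_lt_of_le h6 with h8 | h8
        · refine (KC.or hc c1 c2).mono ?_ ?_ le_rfl
          · intro (x : N.ι ⊕ N.ι → Bool) hx
            have h9 := hA x hx
            change a k + e ≤ N.V (x ∘ Sum.inl) ∨ b k + e ≤ N.V (x ∘ Sum.inr)
            omega
          · intro (x : N.ι ⊕ N.ι → Bool) hx
            have h9 := hB x hx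
            change N.V (x ∘ Sum.inl) ≤ a k ∧ N.V (x ∘ Sum.inr) ≤ b k
            omega
        · refine (KC.and hc c1 c2).mono ?_ ?_ le_rfl
          · intro (x : N.ι ⊕ N.ι → Bool) hx
            have h9 := hA x hx
            change a k + e ≤ N.V (x ∘ Sum.inl) ∧ b k + e ≤ N.V (x ∘ Sum.inr)
            omega
          · intro (x : N.ι ⊕ N.ι → Bool) hx
            have h9 := hB x hx
            change N.V (x ∘ Sum.inl) ≤ a k ∨ N.V (x ∘ Sum.inr) ≤ b k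
            omega
  have h4 := (h3.mono (Set.subset_univ {x | θ + d ≤ (N.step g).V x})
    (Set.subset_univ {x | (N.step g).V x ≤ θ}) le_rfl)
  refine ((key.add h4).congr ?_)
  intro x _ y _
  simp
end H8AP
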