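import Pool.Agent.H8.AP.FC1

/-!
# Functional calculus for difference kernels

PROOF of `KC.posSq`. If `R = 0` then `y = 0` and the kernel is `0`. Let `R > 0`, `s = y x`,
`t = y x'`, `p s = max s 0`, `n s = max (-s) 0`.  Then
`p s ^ 2 - p t ^ 2 = D * (s - t)` with `D = p s + p t - p s * n t / (p s + n t) - n s * p t / (n s + p t)`
(check the four sign cases; Lean's `0 / 0 = 0` is right).  `D` is a multiplier of finite rank: use
`cauchy_gram` with `X = (ι → Bool)`, `r x = |y x|`, vectors `a x`.  Coordinates of the multiplier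
(index type `Unit ⊕ Unit ⊕ F ⊕ F`, or add four kernels with `KC.add`/`KC.mul`):
left `(p s / √R, √R, -√(p s) a x, -√(n s) a x)`, right `(√R, p t / √R, √(n t) a x', √(p t) a x')`.
Squared norms at most `R + R + R/2 ≤ 3 R`.  (`a x` has squared norm `≤ 1/2`; `p s + n s = |s| ≤ R`.)
PROOF of `KC.psi`: `KC.posSq` for `y`, `y - w/2`, `y - w` (bounds `R`, `3R/2`, `2R`), then
`KC.add`, `KC.smul`: `2/w^2 * (3 R + 2 * 9/2 R + 6 R) L = 36 R / w^2 * L`.
-/

open Finset

namespace H8AP

/-- The positive part squared is Lipschitz with a factorised divided difference. -/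
theorem sq_plus_mul {X : Type} [Fintype X] (y : X → ℝ) {R : ℝ} (hR : 0 < R)
    (hy : ∀ x, |y x| ≤ R) :
    ∃ (F : Type) (_ : Fintype F) (a b : X → F → ℝ),
      (∀ x, ∑ f, a x f ^ 2 ≤ 3 * R) ∧ (∀ x, ∑ f, b x f ^ 2 ≤ 3 * R) ∧
      ∀ x x', (max (y x) 0) ^ 2 - (max (y x') 0) ^ 2
        = (∑ f, a x f * b x' f) * (y x - y x') := by
  classical
  set p : X → ℝ := fun x => max (y x) 0 with hp
  set n : X → ℝ := fun x => max (-(y x)) 0 with hn
  obtain ⟨k, g, hg⟩ := cauchy_gram_finset
    (((Finset.univ.image p) ∪ (Finset.univ.image n)).filter (fun r => 0 < r))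
    (fun r hr => (Finset.mem_filter.1 hr).2)
  have hpS : ∀ x, 0 < p x → p x ∈ (((Finset.univ.image p) ∪ (Finset.univ.image n)).filter
      (fun r => 0 < r)) := fun x hx => Finset.mem_filter.2
        ⟨Finset.mem_union_left _ (Finset.mem_image_of_mem _ (Finset.mem_univ x)), hx⟩
  have hnS : ∀ x, 0 < n x → n x ∈ (((Finset.univ.image p) ∪ (Finset.univ.image n)).filter
      (fun r => 0 < r)) := fun x hx => Finset.mem_filter.2
        ⟨Finset.mem_union_right _ (Finset.mem_image_of_mem _ (Finset.mem_univ x)), hx⟩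
  have hp0 : ∀ x, 0 ≤ p x := fun x => le_max_right _ _
  have hn0 : ∀ x, 0 ≤ n x := fun x => le_max_right _ _
  have hpR : ∀ x, p x ≤ R := fun x => max_le ((le_abs_self _).trans (hy x)) hR.le
  have hnR : ∀ x, n x ≤ R := fun x => max_le ((neg_le_abs _).trans (hy x)) hR.le
  have hyp : ∀ x, y x = p x - n x := by
    intro x
    simp only [hp, hn]
    rcases le_total (y x) 0 with h | h
    · rw [max_eq_right h, max_eq_left (by linarith)]; ring
    · rw [max_eq_left h, max_eq_right (by linarith)]; ring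
  have hpn : ∀ x, p x * n x = 0 := by
    intro x
    simp only [hp, hn]
    rcases le_total (y x) 0 with h | h
    · rw [max_eq_right h]; ring
    · rw [max_eq_right (show -(y x) ≤ 0 by linarith)]; ring
  -- squared norms
  have hgp : ∀ x, ∑ i, (p x * g (p x) i) ^ 2 = p x / 2 := by
    intro x
    rcases (hp0 x).eq_or_lt with h | h
    · rw [← h]; simp
    · have h1 := hg _ (hpS x h) _ (hpS x h)
      have : ∑ i, (p x * g (p x) i) ^ 2 = p x ^ 2 * ∑ i, g (p x) i * g (p x) i := by
        rw [Finset.mul_sum]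
        exact Finset.sum_congr rfl fun i _ => by ring
      rw [this, h1]
      field_simp
      ring
  have hgn : ∀ x, ∑ i, (n x * g (n x) i) ^ 2 = n x / 2 := by
    intro x
    rcases (hn0 x).eq_or_lt with h | h
    · rw [← h]; simp
    · have h1 := hg _ (hnS x h) _ (hnS x h)
      have : ∑ i, (n x * g (n x) i) ^ 2 = n x ^ 2 * ∑ i, g (n x) i * g (n x) i := by
        rw [Finset.mul_sum]
        exact Finset.sum_congr rfl fun i _ => by ring
      rw [this, h1]
      field_simp
      ring
  have hcross : ∀ x x', ∑ i, (p x * g (p x) i) * (n x' * g (n x') i)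
      = p x * n x' / (p x + n x') := by
    intro x x'
    have e : ∑ i, (p x * g (p x) i) * (n x' * g (n x') i)
        = p x * n x' * ∑ i, g (p x) i * g (n x') i := by
      rw [Finset.mul_sum]
      exact Finset.sum_congr rfl fun i _ => by ring
    rw [e]
    rcases (hp0 x).eq_or_lt with h | h
    · rw [← h]; simp
    rcases (hn0 x').eq_or_lt with h' | h'
    · rw [← h']; simp
    rw [hg _ (hpS x h) _ (hnS x' h')]
    ring
  have hcross2 : ∀ x x', ∑ i, (n x * g (n x) i) * (p x' * g (p x') i)
      = n x * p x' / (n x + p x') := by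
    intro x x'
    have := hcross x' x
    rw [show n x * p x' / (n x + p x') = p x' * n x / (p x' + n x) by
      rw [mul_comm (n x), add_comm (n x)], ← this]
    exact Finset.sum_congr rfl fun i _ => by ring
  have hsR : Real.sqrt R * Real.sqrt R = R := Real.mul_self_sqrt hR.le
  have hs0 : Real.sqrt R ≠ 0 := (Real.sqrt_pos.2 hR).ne'
  refine ⟨Fin 2 ⊕ (Fin k ⊕ Fin k), inferInstance,
    fun x => Sum.elim ![p x / Real.sqrt R, Real.sqrt R]
      (Sum.elim (fun i => p x * g (p x) i) (fun i => n x * g (n x) i)),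
    fun x => Sum.elim ![Real.sqrt R, p x / Real.sqrt R]
      (Sum.elim (fun i => - (n x * g (n x) i)) (fun i => - (p x * g (p x) i))), ?_, ?_, ?_⟩
  · intro x
    simp only [Fintype.sum_sum_type, Sum.elim_inl, Sum.elim_inr, Fin.sum_univ_two,
      Matrix.cons_val_zero, Matrix.cons_val_one]
    rw [hgp, hgn, div_pow, Real.sq_sqrt hR.le]
    have : p x ^ 2 / R ≤ R := by
      rw [div_le_iff₀ hR]
      nlinarith [hp0 x, hpR x]
    nlinarith [hpR x, hnR x]
  · intro x
    simp only [Fintype.sum_sum_type, Sum.elim_inl, Sum.elim_inr, Fin.sum_univ_two,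
      Matrix.cons_val_zero, Matrix.cons_val_one, neg_sq]
    rw [hgp, hgn, div_pow, Real.sq_sqrt hR.le]
    have : p x ^ 2 / R ≤ R := by
      rw [div_le_iff₀ hR]
      nlinarith [hp0 x, hpR x]
    nlinarith [hpR x, hnR x]
  · intro x x'
    simp only [Fintype.sum_sum_type, Sum.elim_inl, Sum.elim_inr, Fin.sum_univ_two,
      Matrix.cons_val_zero, Matrix.cons_val_one]
    have e1 : ∑ i, p x * g (p x) i * -(n x' * g (n x') i)
        = - (p x * n x' / (p x + n x')) := by
      rw [← hcross x x', ← Finset.sum_neg_distrib]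
      exact Finset.sum_congr rfl fun i _ => by ring
    have e2 : ∑ i, n x * g (n x) i * -(p x' * g (p x') i)
        = - (n x * p x' / (n x + p x')) := by
      rw [← hcross2 x x', ← Finset.sum_neg_distrib]
      exact Finset.sum_congr rfl fun i _ => by ring
    rw [e1, e2]
    have e3 : p x / Real.sqrt R * Real.sqrt R = p x := by field_simp
    have e4 : Real.sqrt R * (p x' / Real.sqrt R) = p x' := by field_simp
    have e5 : y x - y x' = (p x - n x) - (p x' - n x') := by rw [hyp x, hyp x']
    rw [e3, e4, e5]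
    change p x ^ 2 - p x' ^ 2 = _
    rcases mul_eq_zero.1 (hpn x) with h | h
    · rcases mul_eq_zero.1 (hpn x') with h' | h'
      · rw [h, h']; ring
      · rw [h, h']
        rcases (hn0 x).eq_or_lt with h2 | h2
        · rw [← h2]
          rcases (hp0 x').eq_or_lt with h3 | h3
          · rw [← h3]; ring
          · field_simp; ring
        · have h4 : n x + p x' ≠ 0 := by have := hp0 x'; positivity
          field_simp
          ring
    · rcases mul_eq_zero.1 (hpn x') with h' | h'
      · rw [h, h']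
        rcases (hp0 x).eq_or_lt with h2 | h2
        · rw [← h2]
          rcases (hn0 x').eq_or_lt with h3 | h3
          · rw [← h3]; ring
          · field_simp; ring
        · have h4 : p x + n x' ≠ 0 := by have := hn0 x'; positivity
          field_simp
          ring
      · rw [h, h']
        ring

variable {ι : Type} [Fintype ι]

/-- The square of the positive part has difference cost at most `3 R L`. -/
theorem KC.posSq {y : (ι → Bool) → ℝ} {R L : ℝ} (hR : ∀ x, |y x| ≤ R) (hL : 0 ≤ L)
    (h : KC Set.univ Set.univ (fun x x' => y x - y x') L) :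
    KC Set.univ Set.univ (fun x x' => (max (y x) 0) ^ 2 - (max (y x') 0) ^ 2) (3 * R * L) := by
  classical
  have hR0 : 0 ≤ R := (abs_nonneg _).trans (hR (fun _ => false))
  rcases hR0.eq_or_lt with h0 | h0
  · have hy : ∀ x, y x = 0 := fun x => abs_nonpos_iff.1 (h0 ▸ hR x)
    refine (KC.zero (c := 3 * R * L) (by positivity)).congr fun x _ x' _ => ?_
    simp [hy]
  · obtain ⟨F, iF, a, b, ha, hb, h1⟩ := sq_plus_mul y h0 hR
    refine (h.mul a b (by positivity) hL (fun x _ => ha x) (fun x _ => hb x)).congr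
      fun x _ x' _ => ?_
    exact (h1 x x').symm

/-- A cutoff function: `0` for `s ≤ 0`, `1` for `w ≤ s`. -/
noncomputable def psi (w s : ℝ) : ℝ :=
  2 / w ^ 2 * ((max s 0) ^ 2 - 2 * (max (s - w / 2) 0) ^ 2 + (max (s - w) 0) ^ 2)

theorem psi_zero {w s : ℝ} (hw : 0 < w) (hs : s ≤ 0) : psi w s = 0 := by
  unfold psi
  rw [max_eq_right hs, max_eq_right (by linarith : s - w / 2 ≤ 0),
    max_eq_right (by linarith : s - w ≤ 0)]
  ring

theorem psi_one {w s : ℝ} (hw : 0 < w) (hs : w ≤ s) : psi w s = 1 := by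
  unfold psi
  rw [max_eq_left (by linarith : (0 : ℝ) ≤ s), max_eq_left (by linarith : 0 ≤ s - w / 2),
    max_eq_left (by linarith : 0 ≤ s - w)]
  field_simp
  ring

theorem psi_mem {w : ℝ} (hw : 0 < w) (s : ℝ) : 0 ≤ psi w s ∧ psi w s ≤ 1 := by
  rcases le_total s 0 with h | h
  · rw [psi_zero hw h]; norm_num
  rcases le_total w s with h' | h'
  · rw [psi_one hw h']; norm_num
  unfold psi
  rw [max_eq_left h, max_eq_right (by linarith : s - w ≤ 0)]
  have hw2 : (0 : ℝ) < w ^ 2 := by positivity
  rcases le_total s (w / 2) with h2 | h2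
  · rw [max_eq_right (by linarith : s - w / 2 ≤ 0)]
    constructor
    · have : 2 / w ^ 2 * (s ^ 2 - 2 * 0 ^ 2 + 0 ^ 2) = 2 / w ^ 2 * s ^ 2 := by ring
      rw [this]
      positivity
    · rw [div_mul_eq_mul_div, div_le_one hw2]
      nlinarith
  · rw [max_eq_left (by linarith : 0 ≤ s - w / 2)]
    constructor
    · rw [div_mul_eq_mul_div]
      apply div_nonneg _ hw2.le
      nlinarith [sq_nonneg (s - w)]
    · rw [div_mul_eq_mul_div, div_le_one hw2]
      nlinarith [sq_nonneg (s - w)]

theorem KC.psi {y : (ι → Bool) → ℝ} {w R L : ℝ} (hw : 0 < w) (hwR : w ≤ R)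
    (hR : ∀ x, |y x| ≤ R) (hL : 0 ≤ L)
    (h : KC Set.univ Set.univ (fun x x' => y x - y x') L) :
    KC Set.univ Set.univ (fun x x' => H8AP.psi w (y x) - H8AP.psi w (y x'))
      (36 * R / w ^ 2 * L) := by
  have hw2 : (0 : ℝ) < w ^ 2 := by positivity
  have h0 := KC.posSq hR hL h
  have hA : ∀ x, |y x - w / 2| ≤ 3 / 2 * R := fun x => by
    have h1 := abs_le.1 (hR x)
    rw [abs_le]
    constructor <;> linarith
  have hB : ∀ x, |y x - w| ≤ 2 * R := fun x => by
    have h1 := abs_le.1 (hR x)
    rw [abs_le]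
    constructor <;> linarith
  have h1 := KC.posSq (y := fun x => y x - w / 2) hA hL
    (h.congr fun x _ x' _ => by ring)
  have h2 := KC.posSq (y := fun x => y x - w) hB hL
    (h.congr fun x _ x' _ => by ring)
  have hR0 : 0 ≤ R := (abs_nonneg _).trans (hR (fun _ => false))
  have h3 := ((h0.add (h1.smul (-2) (by positivity))).add h2).smul (2 / w ^ 2) (by
    rw [abs_neg, abs_two]; positivity)
  refine (h3.mono (le_refl _) (le_refl _) (le_of_eq ?_)).congr fun x _ x' _ => ?_
  · rw [abs_neg, abs_two, abs_of_pos (by positivity)]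
    field_simp
    ring
  · unfold H8AP.psi
    ring

end H8AP
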