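import Pool.Agent.H8.AP.NodeD
import Pool.Agent.H8.AP.FC2

/-!
# Linear kernels and the base

PROOFS. `LinK.step`: `y' x = (y (x ∘ inl) + y (x ∘ inr)) / (2 g) - (2 g - 1) / (4 g)`;
`S / (2 g) - V' ∈ [0, (2g-1)/(2g)]`, so the error is at most `ε / g + (2g-1)/(4g) ≤ ε + 1/2`; kernel
`(1/(2g)) (K_z + K_w)`: `KC.comap`, `KC.add`, `KC.smul`: cost `2 L / (2 g) ≤ L`.
`LinK.cost`: if `θ < 0` the lower set is empty, if `P < θ + t` the upper set is empty.  Otherwise
`0 ≤ θ ≤ P`; apply `KC.psi` with `w = 1`, `R = P + 2 ε + 1` to `y - (θ + ε)` (|.| ≤ P + 2 ε):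
it is `≥ t - 2 ε ≥ 1` on the upper set and `≤ 0` on the lower set, so the kernel
`psi 1 .. - psi 1 ..` is `1` there.
`base_link`: `y x = wt x / u - 1/2`, `KC.weight`, `KC.smul (1/u)`: cost `(u P)/u = P`.
`base_cost`: `KC.trivial`.
-/

open Finset

namespace H8AP

variable {N : Node} {d P g : ℕ}

theorem LinK.step {ε L : ℝ} (hg : 1 ≤ g) (hε : 0 ≤ ε) (hL : 0 ≤ L) (h : LinK N ε L) :
    LinK (N.step g) (ε + 1 / 2) L := by
  obtain ⟨y, hy, hK⟩ := h
  have hgr : (1 : ℝ) ≤ g := by exact_mod_cast hg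
  have hg0 : (0 : ℝ) < g := by linarith
  refine ⟨fun x => (1 / (2 * (g : ℝ))) * (y (x ∘ Sum.inl) + y (x ∘ Sum.inr)) -
    (2 * (g : ℝ) - 1) / (4 * g), fun x => ?_, ?_⟩
  · set a : ℤ := N.V (x ∘ Sum.inl) with ha
    set b : ℤ := N.V (x ∘ Sum.inr) with hb
    have hV : (N.step g).V x = (a + b) / (2 * (g : ℤ)) := rfl
    set q : ℤ := (a + b) / (2 * (g : ℤ)) with hq
    have hgz : (0 : ℤ) < 2 * (g : ℤ) := by
      have : (1 : ℤ) ≤ g := by exact_mod_cast hg
      linarith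
    have h1 : q * (2 * (g : ℤ)) ≤ a + b := Int.ediv_mul_le _ (ne_of_gt hgz)
    have h2 : a + b < (q + 1) * (2 * (g : ℤ)) := Int.lt_ediv_add_one_mul_self _ hgz
    have h2' : a + b ≤ (q + 1) * (2 * (g : ℤ)) - 1 := by linarith
    have h1r : (q : ℝ) * (2 * (g : ℝ)) ≤ a + b := by exact_mod_cast h1
    have h2r : (a : ℝ) + b ≤ ((q : ℝ) + 1) * (2 * (g : ℝ)) - 1 := by exact_mod_cast h2'
    have e1 := abs_le.1 (hy (x ∘ Sum.inl))
    have e2 := abs_le.1 (hy (x ∘ Sum.inr))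
    rw [← ha] at e1
    rw [← hb] at e2
    rw [hV]
    set s : ℝ := y (x ∘ Sum.inl) with hs
    set t : ℝ := y (x ∘ Sum.inr) with ht
    have h3 : (1 / (2 * (g : ℝ))) * (s + t) - (2 * (g : ℝ) - 1) / (4 * g) - (q : ℝ) =
        (2 * (s + t) - (2 * (g : ℝ) - 1) - 4 * g * q) / (4 * g) := by
      field_simp
      ring
    show |(1 / (2 * (g : ℝ))) * (s + t) - (2 * (g : ℝ) - 1) / (4 * g) - (q : ℝ)| ≤ ε + 1 / 2
    rw [h3, abs_div, abs_of_pos (show (0 : ℝ) < 4 * g by linarith), div_le_iff₀ (by linarith),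
      abs_le]
    have h4 : ε ≤ ε * g := by nlinarith
    constructor <;> nlinarith [e1.1, e1.2, e2.1, e2.2]
  · have h1 : KC (ι := N.ι ⊕ N.ι) Set.univ Set.univ
        (fun x x' => y (x ∘ Sum.inl) - y (x' ∘ Sum.inl)) L :=
      (hK.comap (Sum.inl : N.ι → N.ι ⊕ N.ι)).mono (fun x _ => trivial) (fun x _ => trivial) le_rfl
    have h2 : KC (ι := N.ι ⊕ N.ι) Set.univ Set.univ
        (fun x x' => y (x ∘ Sum.inr) - y (x' ∘ Sum.inr)) L :=
      (hK.comap (Sum.inr : N.ι → N.ι ⊕ N.ι)).mono (fun x _ => trivial) (fun x _ => trivial) le_rfl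
    have h3 := (h1.add h2).smul (1 / (2 * (g : ℝ))) (by linarith)
    refine (h3.congr ?_).mono subset_rfl subset_rfl ?_
    · intro x _ x' _
      show (1 / (2 * (g : ℝ))) * ((y (x ∘ Sum.inl) - y (x' ∘ Sum.inl)) +
          (y (x ∘ Sum.inr) - y (x' ∘ Sum.inr))) =
        ((1 / (2 * (g : ℝ))) * (y (x ∘ Sum.inl) + y (x ∘ Sum.inr)) -
          (2 * (g : ℝ) - 1) / (4 * g)) -
        ((1 / (2 * (g : ℝ))) * (y (x' ∘ Sum.inl) + y (x' ∘ Sum.inr)) -
          (2 * (g : ℝ) - 1) / (4 * g))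
      generalize (2 * (g : ℝ) - 1) / (4 * g) = k
      generalize y (x ∘ Sum.inl) = a1
      generalize y (x ∘ Sum.inr) = a2
      generalize y (x' ∘ Sum.inl) = a3
      generalize y (x' ∘ Sum.inr) = a4
      ring
    · rw [abs_of_pos (by positivity)]
      rw [div_mul_eq_mul_div, one_mul, div_le_iff₀ (by linarith)]
      nlinarith

/-- (FL) -/
theorem LinK.cost {ε L : ℝ} {t : ℕ} (hP : Bdd N P) (hP1 : 1 ≤ P) (hε : 0 ≤ ε) (hL : 0 ≤ L)
    (h : LinK N ε L) (ht : 2 * ε + 1 ≤ t) : Cost N t (36 * (P + 2 * ε + 1) * L) := by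
  intro θ
  have hPr : (1 : ℝ) ≤ P := by exact_mod_cast hP1
  have hc : 0 ≤ 36 * ((P : ℝ) + 2 * ε + 1) * L := by positivity
  rcases lt_or_ge θ 0 with hθ | hθ
  · refine KC.of_empty_right hc ?_
    ext x
    simp only [Set.mem_ofPred_eq, Set.mem_empty_iff_false, iff_false, not_le]
    exact lt_of_lt_of_le hθ (hP x).1
  rcases lt_or_ge (P : ℤ) (θ + t) with hθt | hθt
  · refine KC.of_empty_left hc ?_
    ext x
    simp only [Set.mem_ofPred_eq, Set.mem_empty_iff_false, iff_false, not_le]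
    exact lt_of_le_of_lt (hP x).2 hθt
  obtain ⟨y, hy, hK⟩ := h
  have hθr : (0 : ℝ) ≤ (θ : ℝ) := by exact_mod_cast hθ
  have hθtr : (θ : ℝ) + t ≤ P := by exact_mod_cast hθt
  have ht0 : (0 : ℝ) ≤ (t : ℝ) := Nat.cast_nonneg t
  have hR : ∀ x, |y x - ((θ : ℝ) + ε)| ≤ (P : ℝ) + 2 * ε + 1 := by
    intro x
    have h1 := abs_le.1 (hy x)
    have h2 : (0 : ℝ) ≤ (N.V x : ℝ) := by exact_mod_cast (hP x).1
    have h3 : (N.V x : ℝ) ≤ P := by exact_mod_cast (hP x).2
    rw [abs_le]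
    constructor <;> linarith [h1.1, h1.2]
  have hK' : KC Set.univ Set.univ
      (fun x x' => (y x - ((θ : ℝ) + ε)) - (y x' - ((θ : ℝ) + ε))) L :=
    hK.congr fun x _ x' _ => by ring
  have h4 := KC.psi (y := fun x => y x - ((θ : ℝ) + ε)) (w := 1) (R := (P : ℝ) + 2 * ε + 1)
    one_pos (by linarith) hR hL hK'
  refine (h4.mono (Set.subset_univ _) (Set.subset_univ _) (le_of_eq ?_)).congr ?_
  · ring
  · intro x hx x' hx'
    have h5 : H8AP.psi 1 (y x - ((θ : ℝ) + ε)) = 1 := by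
      apply psi_one one_pos
      have h1 := abs_le.1 (hy x)
      have h6 : (θ : ℝ) + t ≤ (N.V x : ℝ) := by
        have : θ + (t : ℤ) ≤ N.V x := hx
        exact_mod_cast this
      linarith [h1.1, h1.2]
    have h7 : H8AP.psi 1 (y x' - ((θ : ℝ) + ε)) = 0 := by
      apply psi_zero one_pos
      have h1 := abs_le.1 (hy x')
      have h6 : (N.V x' : ℝ) ≤ (θ : ℝ) := by
        have : N.V x' ≤ θ := hx'
        exact_mod_cast this
      linarith [h1.1, h1.2]
    simp only [h5, h7, sub_zero]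

/-- The base: `u * P` bits, `V = ⌊weight / u⌋`. -/
def base (u P : ℕ) : Node where
  ι := Fin (u * P)
  inst := inferInstance
  V := fun x => (wt x / u : ℕ)

theorem wt_le_card {ι : Type} [Fintype ι] (x : ι → Bool) : wt x ≤ Fintype.card ι := by
  unfold wt
  exact (Finset.card_filter_le _ _).trans (le_of_eq Finset.card_univ)

theorem base_card (u P : ℕ) : Fintype.card (base u P).ι = u * P :=
  Fintype.card_fin (u * P)

theorem base_bdd {u P : ℕ} (hu : 1 ≤ u) : Bdd (base u P) P := by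
  intro x
  constructor
  · exact Int.natCast_nonneg _
  · have h1 : wt x ≤ u * P := by
      exact (wt_le_card x).trans (le_of_eq (base_card u P))
    have h2 : wt x / u ≤ P := Nat.div_le_of_le_mul h1
    show ((wt x / u : ℕ) : ℤ) ≤ (P : ℤ)
    exact_mod_cast h2

theorem base_cost {u P t : ℕ} (ht : 1 ≤ t) : Cost (base u P) t (u * P) := by
  intro θ
  have hd : Disjoint {x | θ + (t : ℤ) ≤ (base u P).V x} {x | (base u P).V x ≤ θ} := by
    rw [Set.disjoint_left]
    intro x hx hx'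
    have h1 : θ + (t : ℤ) ≤ (base u P).V x := hx
    have h2 : (base u P).V x ≤ θ := hx'
    have h3 : (1 : ℤ) ≤ t := by exact_mod_cast ht
    linarith
  have h := KC.trivial hd
  refine h.mono subset_rfl subset_rfl (le_of_eq ?_)
  rw [base_card]; push_cast; ring

theorem base_link {u P : ℕ} (hu : 1 ≤ u) : LinK (base u P) (1 / 2) P := by
  have hur : (0 : ℝ) < u := by exact_mod_cast hu
  refine ⟨fun x => (1 / (u : ℝ)) * (wt x : ℝ) - 1 / 2, fun x => ?_, ?_⟩
  · have h1 : ((base u P).V x : ℝ) = ((wt x / u : ℕ) : ℝ) := by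
      show (((wt x / u : ℕ) : ℤ) : ℝ) = ((wt x / u : ℕ) : ℝ)
      norm_cast
    have h2 : ((wt x / u : ℕ) : ℝ) * u ≤ (wt x : ℝ) := by
      exact_mod_cast Nat.div_mul_le_self (wt x) u
    have h3 : (wt x : ℝ) < (((wt x / u : ℕ) : ℝ) + 1) * u := by
      have h4 : wt x < (wt x / u + 1) * u := by
        have := Nat.lt_mul_div_succ (wt x) (show 0 < u by omega)
        rw [mul_comm] at this
        exact this
      exact_mod_cast h4
    simp only [h1]
    have h5 : (1 / (u : ℝ)) * (wt x : ℝ) = (wt x : ℝ) / u := by ring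
    rw [h5]
    have h6 : ((wt x / u : ℕ) : ℝ) ≤ (wt x : ℝ) / u := by
      rw [le_div_iff₀ hur]; exact h2
    have h7 : (wt x : ℝ) / u < ((wt x / u : ℕ) : ℝ) + 1 := by
      rw [div_lt_iff₀ hur]; exact h3
    rw [abs_le]
    constructor <;> linarith
  · have h := (KC.weight (ι := (base u P).ι)).smul (1 / (u : ℝ)) (Nat.cast_nonneg _)
    refine (h.congr ?_).mono subset_rfl subset_rfl (le_of_eq ?_)
    · intro x _ y _
      have h8 : ∀ z : (base u P).ι → Bool,
          (wt z : ℝ) = ∑ i, (if z i then (1 : ℝ) else 0) := by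
        intro z
        unfold wt
        rw [Finset.card_filter]
        push_cast
        rfl
      simp only [h8]
      rw [Finset.sum_sub_distrib]
      ring
    · rw [base_card, abs_of_pos (by positivity)]
      push_cast
      field_simp

end H8AP
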