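import Pool.Agent.H8.AP.NodeL1
import Pool.Agent.H8.AP.NodeL2
import Pool.Agent.H8.AP.NodeLin

/-!
# The least costs of the floor tree satisfy the recursion
-/

open Finset

namespace H8AP

variable {N : Node} {d P g : ℕ} {c l : ℝ}

/-- The least cost. -/
noncomputable def cst (N : Node) (t : ℕ) : ℝ := sInf {c : ℝ | 0 ≤ c ∧ Cost N t c}

theorem cst_nonneg (t : ℕ) : 0 ≤ cst N t :=
  Real.sInf_nonneg fun _ h => h.1

theorem cst_le {t : ℕ} (hc : 0 ≤ c) (h : Cost N t c) : cst N t ≤ c :=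
  csInf_le ⟨0, fun _ h => h.1⟩ ⟨hc, h⟩

private theorem set_nonempty {t : ℕ} (ht : 1 ≤ t) : {c : ℝ | 0 ≤ c ∧ Cost N t c}.Nonempty := by
  refine ⟨Fintype.card N.ι, Nat.cast_nonneg _, fun θ => KC.trivial ?_⟩
  rw [Set.disjoint_left]
  intro x hx hy
  simp only [Set.mem_ofPred_eq] at hx hy
  have : (1:ℤ) ≤ t := by exact_mod_cast ht
  omega

theorem Cost.of_cst_lt {t : ℕ} (ht : 1 ≤ t) (h : cst N t < c) : Cost N t c := by
  obtain ⟨b, ⟨_, hb⟩, hbc⟩ := exists_lt_of_csInf_lt (set_nonempty ht) h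
  exact fun θ => (hb θ).mono (fun _ h => h) (fun _ h => h) hbc.le

theorem cst_step (hP : Bdd N P) (hg : 1 ≤ g) (hd : 1 ≤ d) :
    cst (N.step g) d ≤ √2 * cst N (g * (d - 1) + 1) +
      432 * ∑ t ∈ Finset.Ioc (g * (d - 1) + 1) P, cst N t := by
  set e := g * (d - 1) + 1 with he
  refine le_of_forall_pos_le_add fun ε hε => ?_
  -- a small parameter
  set δ : ℝ := ε / (√2 + 432 * (P + 1)) with hδ
  have hD : 0 < √2 + 432 * ((P:ℝ) + 1) := by positivity
  have hδ0 : 0 < δ := div_pos hε hD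
  have h1 : Loc N e (216 * ∑ t ∈ Finset.Ioc e P, (cst N t + δ)) :=
    Loc.of_cost hP (fun t => cst N t + δ) (fun t => by have := cst_nonneg (N := N) t; positivity)
      (fun t ht _ => Cost.of_cst_lt (by omega) (by linarith))
  have h2 : Cost N e (cst N e + δ) := Cost.of_cst_lt (by omega) (by linarith)
  have h0 := cst_nonneg (N := N) e
  have hs : 0 ≤ 216 * ∑ t ∈ Finset.Ioc e P, (cst N t + δ) :=
    mul_nonneg (by norm_num) (Finset.sum_nonneg fun t _ => by
      have := cst_nonneg (N := N) t; positivity)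
  have h3 := Cost.step hg hd (by linarith : 0 ≤ cst N e + δ) hs h2 h1
  have h30 : 0 ≤ √2 * (cst N e + δ) + 2 * (216 * ∑ t ∈ Finset.Ioc e P, (cst N t + δ)) :=
    add_nonneg (mul_nonneg (Real.sqrt_nonneg _) (by linarith)) (mul_nonneg (by norm_num) hs)
  refine (cst_le h30 h3).trans ?_
  have h5 : ∑ t ∈ Finset.Ioc e P, (cst N t + δ) ≤ ∑ t ∈ Finset.Ioc e P, cst N t + (P + 1) * δ := by
    rw [Finset.sum_add_distrib, Finset.sum_const, nsmul_eq_mul]
    gcongr
    rw [Nat.card_Ioc]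
    calc ((P - e : ℕ) : ℝ) ≤ (P : ℝ) := by exact_mod_cast Nat.sub_le _ _
      _ ≤ P + 1 := by linarith
  have h6 : δ * (√2 + 432 * (P + 1)) = ε := by
    rw [hδ]; field_simp
  nlinarith [h5, h6]

/-- The tree. -/
def tree (u P : ℕ) (G : ℕ → ℕ) : ℕ → Node
  | 0 => base u P
  | j + 1 => (tree u P G j).step (G j)

private theorem loc_normal {u P : ℕ} {G : ℕ → ℕ} {i : ℕ} {d : ℕ} {c : ℝ} (hc : 0 ≤ c)
    (h : Loc (tree u P G i) d c) : ∀ s, (∀ l, i ≤ l → l < i + s → G l = 1) →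
      Loc (tree u P G (i + s)) d (2 ^ s * c) := by
  intro s
  induction s with
  | zero => intro _; simpa using h
  | succ s ih =>
    intro hG
    have h1 := ih (fun l hl hl' => hG l hl (by omega))
    have h2 : tree u P G (i + (s + 1)) = (tree u P G (i + s)).step 1 := by
      show (tree u P G (i + s)).step (G (i + s)) = _
      rw [hG (i + s) (by omega) (by omega)]
    rw [h2, pow_succ, mul_comm ((2:ℝ) ^ s) 2, mul_assoc]
    exact Loc.step_one (by positivity) h1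

/-- (DD) -/
theorem cst_dd {u P : ℕ} {G : ℕ → ℕ} {i s : ℕ} (hP : Bdd (tree u P G i) P)
    (hG : ∀ l, i ≤ l → l < i + s → G l = 1) (hd : 2 ≤ d) :
    cst (tree u P G (i + s)) d ≤
      2 ^ s * (216 * ∑ t ∈ Finset.Icc d P, cst (tree u P G i) t) := by
  refine le_of_forall_pos_le_add fun ε hε => ?_
  set δ : ℝ := ε / (2 ^ s * 216 * (P + 1)) with hδ
  have hD : 0 < (2:ℝ) ^ s * 216 * ((P:ℝ) + 1) := by positivity
  have hδ0 : 0 < δ := div_pos hε hD
  obtain ⟨d', rfl⟩ : ∃ d', d = d' + 1 := ⟨d - 1, by omega⟩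
  have h1 : Loc (tree u P G i) d'
      (216 * ∑ t ∈ Finset.Ioc d' P, (cst (tree u P G i) t + δ)) :=
    Loc.of_cost hP (fun t => cst (tree u P G i) t + δ)
      (fun t => by have := cst_nonneg (N := tree u P G i) t; positivity)
      (fun t ht _ => Cost.of_cst_lt (by omega) (by linarith))
  have hs : 0 ≤ 216 * ∑ t ∈ Finset.Ioc d' P, (cst (tree u P G i) t + δ) :=
    mul_nonneg (by norm_num) (Finset.sum_nonneg fun t _ => by
      have := cst_nonneg (N := tree u P G i) t; positivity)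
  have h2 := (loc_normal hs h1 s hG).cost
  refine (cst_le (mul_nonneg (by positivity) hs) h2).trans ?_
  have hI : Finset.Ioc d' P = Finset.Icc (d' + 1) P := by
    ext t; simp only [Finset.mem_Ioc, Finset.mem_Icc]; omega
  rw [hI]
  have h5 : ∑ t ∈ Finset.Icc (d' + 1) P, (cst (tree u P G i) t + δ) ≤
      ∑ t ∈ Finset.Icc (d' + 1) P, cst (tree u P G i) t + (P + 1) * δ := by
    rw [Finset.sum_add_distrib, Finset.sum_const, nsmul_eq_mul]
    gcongr
    rw [Nat.card_Icc]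
    calc ((P + 1 - (d' + 1) : ℕ) : ℝ) ≤ ((P + 1 : ℕ) : ℝ) := by exact_mod_cast Nat.sub_le _ _
      _ = P + 1 := by push_cast; ring
  have h6 : δ * (2 ^ s * 216 * (P + 1)) = ε := by
    rw [hδ]; field_simp
  calc (2:ℝ) ^ s * (216 * ∑ t ∈ Finset.Icc (d' + 1) P, (cst (tree u P G i) t + δ))
      ≤ 2 ^ s * (216 * (∑ t ∈ Finset.Icc (d' + 1) P, cst (tree u P G i) t + (P + 1) * δ)) := by
        gcongr
    _ = _ := by rw [← h6]; ring

theorem tree_bdd {u P : ℕ} {G : ℕ → ℕ} (hu : 1 ≤ u) (hG : ∀ j, 1 ≤ G j) (j : ℕ) :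
    Bdd (tree u P G j) P := by
  induction j with
  | zero => exact base_bdd hu
  | succ j ih => exact Bdd.step ih (hG j)

private theorem tree_link {u P : ℕ} {G : ℕ → ℕ} (hu : 1 ≤ u) (hG : ∀ j, 1 ≤ G j) (j : ℕ) :
    LinK (tree u P G j) ((j + 1) / 2) P := by
  induction j with
  | zero =>
    have h := base_link (P := P) hu
    have e : (((0:ℕ) : ℝ) + 1) / 2 = 1 / 2 := by norm_num
    rw [e]; exact h
  | succ j ih =>
    have := LinK.step (g := G j) (hG j) (by positivity) (Nat.cast_nonneg _) ih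
    have h2 : (((j + 1 : ℕ) : ℝ) + 1) / 2 = ((j:ℝ) + 1) / 2 + 1 / 2 := by push_cast; ring
    rw [h2]
    exact this

theorem tree_fl {u P : ℕ} {G : ℕ → ℕ} (hu : 1 ≤ u) (hP : 1 ≤ P) (hG : ∀ j, 1 ≤ G j)
    {j t : ℕ} (ht : j + 2 ≤ t) : cst (tree u P G j) t ≤ 36 * (P + j + 2) * P := by
  have ht' : ((j:ℝ) + 2) ≤ t := by exact_mod_cast ht
  have h := LinK.cost (tree_bdd hu hG j) hP (by positivity) (Nat.cast_nonneg _)
    (tree_link (P := P) hu hG j) (t := t) (by linarith)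
  have h2 : 36 * ((P:ℝ) + 2 * ((j + 1) / 2) + 1) * P = 36 * (P + j + 2) * P := by ring
  rw [h2] at h
  exact cst_le (by positivity) h

theorem tree_card {u P : ℕ} {G : ℕ → ℕ} (j : ℕ) :
    Fintype.card (tree u P G j).ι = 2 ^ j * (u * P) := by
  induction j with
  | zero => show Fintype.card (Fin (u * P)) = _; simp
  | succ j ih =>
    show Fintype.card ((tree u P G j).ι ⊕ (tree u P G j).ι) = _
    rw [Fintype.card_sum, ih]; ring

private theorem wt_sum {α β : Type} [Fintype α] [Fintype β] (x : α ⊕ β → Bool) :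
    wt x = wt (x ∘ Sum.inl) + wt (x ∘ Sum.inr) := by
  unfold wt
  simp only [Finset.card_filter, Fintype.sum_sum_type, Function.comp]

theorem tree_wt {u P : ℕ} {G : ℕ → ℕ} (hu : 1 ≤ u) (hG : ∀ j, 1 ≤ G j) (j : ℕ)
    (x : (tree u P G j).ι → Bool) :
    ((u * 2 ^ j * ∏ i ∈ Finset.range j, G i : ℕ) : ℤ) * (tree u P G j).V x ≤ wt x ∧
    (wt x : ℤ) < ((u * 2 ^ j * ∏ i ∈ Finset.range j, G i : ℕ) : ℤ) *
      ((tree u P G j).V x + j + 1) := by
  induction j with
  | zero =>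
    have h1 : (tree u P G 0).V x = ((wt x / u : ℕ) : ℤ) := rfl
    rw [h1]
    have h2 := Nat.div_add_mod (wt x) u
    have h3 := Nat.mod_lt (wt x) (show 0 < u by omega)
    have h4 : u * (wt x / u) ≤ wt x := Nat.mul_div_le _ _
    have h5 : wt x < u * (wt x / u + 1) := by rw [mul_add, mul_one]; omega
    simp only [pow_zero, mul_one, Finset.range_zero, Finset.prod_empty]
    constructor
    · exact_mod_cast h4
    · have : (wt x : ℤ) < (u:ℤ) * (((wt x / u : ℕ) : ℤ) + 1) := by exact_mod_cast h5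
      simpa using this
  | succ j ih =>
    obtain ⟨a1, a2⟩ := ih (x ∘ Sum.inl)
    obtain ⟨b1, b2⟩ := ih (x ∘ Sum.inr)
    have hw : (wt x : ℤ) = wt (x ∘ Sum.inl) + wt (x ∘ Sum.inr) := by exact_mod_cast wt_sum x
    set V := (tree u P G j).V (x ∘ Sum.inl) with hV
    set V' := (tree u P G j).V (x ∘ Sum.inr) with hV'
    have hs : (tree u P G (j + 1)).V x = (V + V') / (2 * (G j : ℤ)) := rfl
    rw [hs]
    set M : ℤ := ((u * 2 ^ j * ∏ i ∈ Finset.range j, G i : ℕ) : ℤ) with hM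
    have hM' : ((u * 2 ^ (j + 1) * ∏ i ∈ Finset.range (j + 1), G i : ℕ) : ℤ) =
        M * (2 * (G j : ℤ)) := by
      rw [hM, Finset.prod_range_succ, pow_succ]; push_cast; ring
    rw [hM', hw]
    have hGj : (1:ℤ) ≤ G j := by exact_mod_cast hG j
    have hM0 : 0 < M := by
      rw [hM]
      have : 0 < u * 2 ^ j * ∏ i ∈ Finset.range j, G i :=
        Nat.mul_pos (Nat.mul_pos (by omega) (by positivity))
          (Finset.prod_pos fun i _ => by have := hG i; omega)
      exact_mod_cast this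
    set q := (V + V') / (2 * (G j : ℤ)) with hq
    have e1 := Int.mul_ediv_add_emod (V + V') (2 * (G j : ℤ))
    have e2 := Int.emod_nonneg (V + V') (show (2 * (G j : ℤ)) ≠ 0 by omega)
    have e3 := Int.emod_lt_of_pos (V + V') (show 0 < 2 * (G j : ℤ) by omega)
    rw [← hq] at e1
    constructor
    · have : (2 * (G j : ℤ)) * q ≤ V + V' := by linarith
      nlinarith
    · have h6 : V + V' + 2 * (j + 1) ≤ (2 * (G j : ℤ)) * (q + (j + 1 : ℕ) + 1) := by
        push_cast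
        nlinarith
      have h7 : M * (V + V' + 2 * (j + 1)) ≤ M * ((2 * (G j : ℤ)) * (q + (j + 1 : ℕ) + 1)) :=
        mul_le_mul_of_nonneg_left h6 hM0.le
      nlinarith

end H8AP
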