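import Pool.Agent.H8.AP.KC

/-!
# Gram vectors of the Cauchy kernel

PROOF. The matrix `M x y = √(r x) √(r y) / (r x + r y)` (set to `0` if `r x = 0` or `r y = 0`) is
positive semidefinite: for real `c`,
`∑ x y, c x c y M x y = ∫ t in Ioi 0, (∑ x, c x √(r x) exp (- r x t)) ^ 2` where the sum is over
the `x` with `0 < r x` (expand the square, `∫ t in Ioi 0, exp (-(a t)) = 1 / a` for `a > 0`).
So `M = Bᴴ * B` (`Matrix.posSemidef_iff_eq_conjTranspose_mul_self` or the like); take `F = X`,
`a x f = B f x`.  Then `∑ f, a x f ^ 2 = M x x`, which is `1/2` or `0`.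
-/

open Finset

namespace H8AP

/-- Finite Gram vectors of the Cauchy matrix `1/(r+s)`. -/
theorem cauchy_gram_finset (S : Finset ℝ) (hS : ∀ r ∈ S, 0 < r) :
    ∃ (k : ℕ) (g : ℝ → Fin k → ℝ), ∀ r ∈ S, ∀ s ∈ S, ∑ i, g r i * g s i = 1 / (r + s) := by
  classical
  induction S using Finset.induction_on with
  | empty => exact ⟨0, fun _ _ => 0, by simp⟩
  | @insert a S ha ih =>
    obtain ⟨k, g, hg⟩ := ih (fun r hr => hS r (Finset.mem_insert_of_mem hr))
    have ha0 : 0 < a := hS a (Finset.mem_insert_self a S)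
    refine ⟨k + 1, fun r => Fin.cons (Real.sqrt (2 * a) / (r + a))
      (fun i => (r - a) / (r + a) * g r i), ?_⟩
    intro r hr s hs
    have hr0 : 0 < r := hS r hr
    have hs0 : 0 < s := hS s hs
    have h2 : Real.sqrt (2 * a) * Real.sqrt (2 * a) = 2 * a :=
      Real.mul_self_sqrt (by linarith)
    have hra : r + a ≠ 0 := by positivity
    have hsa : s + a ≠ 0 := by positivity
    have hrs : r + s ≠ 0 := by positivity
    rw [Fin.sum_univ_succ]
    simp only [Fin.cons_zero, Fin.cons_succ]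
    have e1 : Real.sqrt (2 * a) / (r + a) * (Real.sqrt (2 * a) / (s + a))
        = 2 * a / ((r + a) * (s + a)) := by
      rw [div_mul_div_comm, h2]
    have e2 : ∑ i, (r - a) / (r + a) * g r i * ((s - a) / (s + a) * g s i)
        = (r - a) / (r + a) * ((s - a) / (s + a)) * ∑ i, g r i * g s i := by
      rw [Finset.mul_sum]
      refine Finset.sum_congr rfl fun i _ => by ring
    rw [e1, e2]
    rcases Finset.mem_insert.1 hr with rfl | hr'
    · field_simp
      ring
    rcases Finset.mem_insert.1 hs with rfl | hs'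
    · field_simp
      ring
    rw [hg r hr' s hs']
    field_simp
    ring

theorem cauchy_gram {X : Type} [Fintype X] (r : X → ℝ) (hr : ∀ x, 0 ≤ r x) :
    ∃ (F : Type) (_ : Fintype F) (a : X → F → ℝ), (∀ x, ∑ f, (a x f) ^ 2 ≤ 1 / 2) ∧
      (∀ x, r x = 0 → ∀ f, a x f = 0) ∧
      ∀ x y, 0 < r x → 0 < r y → ∑ f, a x f * a y f = √(r x) * √(r y) / (r x + r y) := by
  classical
  obtain ⟨k, g, hg⟩ := cauchy_gram_finset ((Finset.univ.image r).filter (fun s => 0 < s))
    (fun s hs => (Finset.mem_filter.1 hs).2)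
  have hmem : ∀ x, 0 < r x → r x ∈ (Finset.univ.image r).filter (fun s => 0 < s) := fun x hx =>
    Finset.mem_filter.2 ⟨Finset.mem_image_of_mem _ (Finset.mem_univ x), hx⟩
  have hprod : ∀ x y, 0 < r x → 0 < r y →
      ∑ f, (√(r x) * g (r x) f) * (√(r y) * g (r y) f) = √(r x) * √(r y) / (r x + r y) := by
    intro x y hx hy
    have e : ∑ f, (√(r x) * g (r x) f) * (√(r y) * g (r y) f)
        = √(r x) * √(r y) * ∑ f, g (r x) f * g (r y) f := by
      rw [Finset.mul_sum]
      exact Finset.sum_congr rfl fun f _ => by ring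
    rw [e, hg _ (hmem x hx) _ (hmem y hy)]
    ring
  refine ⟨Fin k, inferInstance, fun x f => √(r x) * g (r x) f, ?_, ?_, hprod⟩
  · intro x
    change ∑ f, (√(r x) * g (r x) f) ^ 2 ≤ 1 / 2
    rcases (hr x).eq_or_lt with h | h
    · rw [← h]; simp
    · have h1 := hprod x x h h
      have h2 : √(r x) * √(r x) = r x := Real.mul_self_sqrt (hr x)
      have h3 : ∑ f, (√(r x) * g (r x) f) ^ 2
          = ∑ f, (√(r x) * g (r x) f) * (√(r x) * g (r x) f) :=
        Finset.sum_congr rfl fun f _ => by ring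
      rw [h3, h1, h2, ← two_mul, div_le_div_iff₀ (by linarith) (by norm_num)]
      linarith
  · intro x hx f
    simp [hx]

end H8AP
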