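import Mathlib

/-!
# Costs of kernels on the cube (general adversary bound, finite-dimensional form)

`KC A B K c`: there are vectors `u x i`, `v y i` with squared norms summing to at most `c`
such that `K x y` is the sum over the coordinates where `x` and `y` differ of the inner products.
-/

open Finset

namespace H8AP

/-- The kernel `K` on `A × B` has cost at most `c`. -/
def KC {ι : Type} [Fintype ι] (A B : Set (ι → Bool)) (K : (ι → Bool) → (ι → Bool) → ℝ)
    (c : ℝ) : Prop :=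
  ∃ (E : Type) (_ : Fintype E) (u v : (ι → Bool) → ι → E → ℝ),
    (∀ x ∈ A, ∑ i, ∑ e, (u x i e) ^ 2 ≤ c) ∧
    (∀ y ∈ B, ∑ i, ∑ e, (v y i e) ^ 2 ≤ c) ∧
    ∀ x ∈ A, ∀ y ∈ B, ∑ i, ∑ e, (if x i = y i then 0 else u x i e * v y i e) = K x y

variable {ι κ : Type} [Fintype ι] [Fintype κ]
variable {A B A' B' : Set (ι → Bool)} {K K' : (ι → Bool) → (ι → Bool) → ℝ} {c c' : ℝ}

theorem KC.mono (h : KC A B K c) (hA : A' ⊆ A) (hB : B' ⊆ B) (hc : c ≤ c') : KC A' B' K c' := by
  obtain ⟨E, hE, u, v, h1, h2, h3⟩ := h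
  exact ⟨E, hE, u, v, fun x hx => (h1 x (hA hx)).trans hc, fun y hy => (h2 y (hB hy)).trans hc,
    fun x hx y hy => h3 x (hA hx) y (hB hy)⟩

theorem KC.congr (h : KC A B K c) (hK : ∀ x ∈ A, ∀ y ∈ B, K x y = K' x y) : KC A B K' c := by
  obtain ⟨E, hE, u, v, h1, h2, h3⟩ := h
  exact ⟨E, hE, u, v, h1, h2, fun x hx y hy => (h3 x hx y hy).trans (hK x hx y hy)⟩

theorem KC.zero (hc : 0 ≤ c) : KC A B (fun _ _ => 0) c :=
  ⟨Unit, inferInstance, fun _ _ _ => 0, fun _ _ _ => 0, fun _ _ => by simpa using hc,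
    fun _ _ => by simpa using hc, fun _ _ _ _ => by simp⟩

theorem KC.of_empty_left (hc : 0 ≤ c) (hA : A = ∅) : KC A B K c :=
  (KC.zero hc : KC A B (fun _ _ => 0) c).congr (fun x hx => by simp [hA] at hx)

theorem KC.of_empty_right (hc : 0 ≤ c) (hB : B = ∅) : KC A B K c :=
  (KC.zero hc : KC A B (fun _ _ => 0) c).congr (fun x _ y hy => by simp [hB] at hy)

theorem KC.symm (h : KC A B K c) : KC B A (fun y x => K x y) c := by
  obtain ⟨E, hE, u, v, h1, h2, h3⟩ := h
  refine ⟨E, hE, v, u, h2, h1, fun y hy x hx => ?_⟩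
  refine Eq.trans ?_ (h3 x hx y hy)
  refine Finset.sum_congr rfl fun i _ => Finset.sum_congr rfl fun e _ => ?_
  by_cases hxy : x i = y i
  · rw [if_pos hxy, if_pos hxy.symm]
  · rw [if_neg hxy, if_neg (Ne.symm hxy), mul_comm]

theorem KC.add (h : KC A B K c) (h' : KC A B K' c') :
    KC A B (fun x y => K x y + K' x y) (c + c') := by
  obtain ⟨E, hE, u, v, h1, h2, h3⟩ := h
  obtain ⟨E', hE', u', v', h1', h2', h3'⟩ := h'
  refine ⟨E ⊕ E', inferInstance, fun x i e => e.elim (u x i) (u' x i),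
    fun y i e => e.elim (v y i) (v' y i), fun x hx => ?_, fun y hy => ?_, fun x hx y hy => ?_⟩
  · simp only [Fintype.sum_sum_type, Sum.elim_inl, Sum.elim_inr, Finset.sum_add_distrib]
    exact add_le_add (h1 x hx) (h1' x hx)
  · simp only [Fintype.sum_sum_type, Sum.elim_inl, Sum.elim_inr, Finset.sum_add_distrib]
    exact add_le_add (h2 y hy) (h2' y hy)
  · simp only [Fintype.sum_sum_type, Sum.elim_inl, Sum.elim_inr, Finset.sum_add_distrib]
    rw [h3 x hx y hy, h3' x hx y hy]

/-- Schur multiplier of finite rank. -/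
theorem KC.mul {F : Type} [Fintype F] (a b : (ι → Bool) → F → ℝ) {m : ℝ} (hm : 0 ≤ m)
    (hc : 0 ≤ c) (ha : ∀ x ∈ A, ∑ f, (a x f) ^ 2 ≤ m) (hb : ∀ y ∈ B, ∑ f, (b y f) ^ 2 ≤ m)
    (h : KC A B K c) : KC A B (fun x y => (∑ f, a x f * b y f) * K x y) (m * c) := by
  have _ := hc
  obtain ⟨E, hE, u, v, hu, hv, hk⟩ := h
  refine ⟨F × E, inferInstance, fun x k e => a x e.1 * u x k e.2,
    fun y k e => b y e.1 * v y k e.2, fun x hx => ?_, fun y hy => ?_, fun x hx y hy => ?_⟩
  · have h1 : ∑ k, ∑ e : F × E, (a x e.1 * u x k e.2) ^ 2 =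
        (∑ f, a x f ^ 2) * ∑ k, ∑ e, (u x k e) ^ 2 := by
      simp_rw [Fintype.sum_prod_type, mul_pow, Finset.sum_mul_sum, ← Finset.mul_sum]
      rw [Finset.sum_comm]
      exact Finset.sum_congr rfl fun f _ => (Finset.mul_sum _ _ _).symm
    rw [h1]
    exact mul_le_mul (ha x hx) (hu x hx)
      (Finset.sum_nonneg fun k _ => Finset.sum_nonneg fun e _ => sq_nonneg _) hm
  · have h1 : ∑ k, ∑ e : F × E, (b y e.1 * v y k e.2) ^ 2 =
        (∑ f, b y f ^ 2) * ∑ k, ∑ e, (v y k e) ^ 2 := by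
      simp_rw [Fintype.sum_prod_type, mul_pow, Finset.sum_mul_sum, ← Finset.mul_sum]
      rw [Finset.sum_comm]
      exact Finset.sum_congr rfl fun f _ => (Finset.mul_sum _ _ _).symm
    rw [h1]
    exact mul_le_mul (hb y hy) (hv y hy)
      (Finset.sum_nonneg fun k _ => Finset.sum_nonneg fun e _ => sq_nonneg _) hm
  · beta_reduce
    rw [← hk x hx y hy]
    simp_rw [Fintype.sum_prod_type, Finset.sum_mul, Finset.mul_sum]
    rw [Finset.sum_comm]
    refine Finset.sum_congr rfl fun f _ => Finset.sum_congr rfl fun k _ =>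
      Finset.sum_congr rfl fun e _ => ?_
    split_ifs <;> ring

/-- Rank one multiplier. -/
theorem KC.mul_one (a b : (ι → Bool) → ℝ) {m : ℝ} (hm : 0 ≤ m)
    (hc : 0 ≤ c) (ha : ∀ x ∈ A, |a x| ≤ m) (hb : ∀ y ∈ B, |b y| ≤ m)
    (h : KC A B K c) : KC A B (fun x y => a x * b y * K x y) (m ^ 2 * c) := by
  have _ := hm
  have h1 := KC.mul (F := Unit) (fun x _ => a x) (fun y _ => b y) (m := m ^ 2) (by positivity) hc
    (fun x hx => ?_) (fun y hy => ?_) h
  · exact h1.congr fun x _ y _ => by simp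
  · simp only [Finset.univ_unique, Finset.sum_singleton]
    exact sq_le_sq' (by linarith [neg_abs_le (a x), ha x hx]) ((le_abs_self _).trans (ha x hx))
  · simp only [Finset.univ_unique, Finset.sum_singleton]
    exact sq_le_sq' (by linarith [neg_abs_le (b y), hb y hy]) ((le_abs_self _).trans (hb y hy))

theorem KC.smul (r : ℝ) (hc : 0 ≤ c) (h : KC A B K c) :
    KC A B (fun x y => r * K x y) (|r| * c) := by
  have hs : Real.sqrt |r| ^ 2 = |r| := Real.sq_sqrt (abs_nonneg r)
  have h1 := KC.mul (F := Unit) (A := A) (B := B)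
    (fun _ _ => Real.sqrt |r| * ((SignType.sign r : SignType) : ℝ))
    (fun _ _ => Real.sqrt |r|) (abs_nonneg r) hc (fun x _ => ?_) (fun y _ => ?_) h
  · refine h1.congr fun x _ y _ => ?_
    have h4 : Real.sqrt |r| * ((SignType.sign r : SignType) : ℝ) * Real.sqrt |r| = r := by
      calc Real.sqrt |r| * ((SignType.sign r : SignType) : ℝ) * Real.sqrt |r| =
          Real.sqrt |r| ^ 2 * ((SignType.sign r : SignType) : ℝ) := by ring
        _ = |r| * ((SignType.sign r : SignType) : ℝ) := by rw [hs]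
        _ = r := by rw [mul_comm]; exact sign_mul_abs r
    simp only [Finset.univ_unique, Finset.sum_singleton, h4]
  · have h2 : ((SignType.sign r : SignType) : ℝ) ^ 2 ≤ 1 := by
      rcases lt_trichotomy r 0 with h | h | h
      · simp [sign_neg h]
      · simp [h]
      · simp [sign_pos h]
    have h3 := abs_nonneg r
    simp only [Finset.univ_unique, Finset.sum_singleton, mul_pow, hs]
    nlinarith
  · simp [hs]

/-- Direct sum over labels. -/
theorem KC.lab {L : Type} [Fintype L] (p q : (ι → Bool) → L → ℝ) (hc : 0 ≤ c)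
    (hp : ∀ x ∈ A, ∑ l, (p x l) ^ 2 ≤ 1) (hq : ∀ y ∈ B, ∑ l, (q y l) ^ 2 ≤ 1)
    (K : L → (ι → Bool) → (ι → Bool) → ℝ)
    (h : ∀ l, KC {x | x ∈ A ∧ p x l ≠ 0} {y | y ∈ B ∧ q y l ≠ 0} (K l) c) :
    KC A B (fun x y => ∑ l, p x l * q y l * K l x y) c := by
  choose E hE u v hu hv hk using h
  refine ⟨Σ l, E l, inferInstance, fun x k e => p x e.1 * u e.1 x k e.2,
    fun y k e => q y e.1 * v e.1 y k e.2, fun x hx => ?_, fun y hy => ?_, fun x hx y hy => ?_⟩
  · calc ∑ k, ∑ e : Σ l, E l, (p x e.1 * u e.1 x k e.2) ^ 2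
        = ∑ l, p x l ^ 2 * ∑ k, ∑ e, (u l x k e) ^ 2 := by
          simp_rw [Fintype.sum_sigma, mul_pow, Finset.mul_sum]
          rw [Finset.sum_comm]
      _ ≤ ∑ l, p x l ^ 2 * c := by
          refine Finset.sum_le_sum fun l _ => ?_
          by_cases h0 : p x l = 0
          · simp [h0]
          · exact mul_le_mul_of_nonneg_left (hu l x ⟨hx, h0⟩) (sq_nonneg _)
      _ = (∑ l, p x l ^ 2) * c := by rw [Finset.sum_mul]
      _ ≤ 1 * c := mul_le_mul_of_nonneg_right (hp x hx) hc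
      _ = c := one_mul c
  · calc ∑ k, ∑ e : Σ l, E l, (q y e.1 * v e.1 y k e.2) ^ 2
        = ∑ l, q y l ^ 2 * ∑ k, ∑ e, (v l y k e) ^ 2 := by
          simp_rw [Fintype.sum_sigma, mul_pow, Finset.mul_sum]
          rw [Finset.sum_comm]
      _ ≤ ∑ l, q y l ^ 2 * c := by
          refine Finset.sum_le_sum fun l _ => ?_
          by_cases h0 : q y l = 0
          · simp [h0]
          · exact mul_le_mul_of_nonneg_left (hv l y ⟨hy, h0⟩) (sq_nonneg _)
      _ = (∑ l, q y l ^ 2) * c := by rw [Finset.sum_mul]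
      _ ≤ 1 * c := mul_le_mul_of_nonneg_right (hq y hy) hc
      _ = c := one_mul c
  · simp_rw [Fintype.sum_sigma]
    rw [Finset.sum_comm]
    refine Finset.sum_congr rfl fun l _ => ?_
    by_cases h0 : p x l ≠ 0 ∧ q y l ≠ 0
    · rw [← hk l x ⟨hx, h0.1⟩ y ⟨hy, h0.2⟩, Finset.mul_sum]
      refine Finset.sum_congr rfl fun k _ => ?_
      rw [Finset.mul_sum]
      refine Finset.sum_congr rfl fun e _ => ?_
      split_ifs <;> ring
    · rw [not_and_or, not_not, not_not] at h0
      rcases h0 with h0 | h0 <;> simp [h0]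

/-- Identification of variables. -/
theorem KC.comap (π : ι → κ) (h : KC A B K c) :
    KC (ι := κ) {x | x ∘ π ∈ A} {y | y ∘ π ∈ B} (fun x y => K (x ∘ π) (y ∘ π)) c := by
  classical
  obtain ⟨E, hE, u, v, hu, hv, hk⟩ := h
  refine ⟨ι × E, inferInstance, fun x k e => if π e.1 = k then u (x ∘ π) e.1 e.2 else 0,
    fun y k e => if π e.1 = k then v (y ∘ π) e.1 e.2 else 0, fun x hx => ?_, fun y hy => ?_,
    fun x hx y hy => ?_⟩
  · refine le_trans (le_of_eq ?_) (hu (x ∘ π) hx)
    rw [Finset.sum_comm, Fintype.sum_prod_type]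
    refine Finset.sum_congr rfl fun i _ => Finset.sum_congr rfl fun e _ => ?_
    simp
  · refine le_trans (le_of_eq ?_) (hv (y ∘ π) hy)
    rw [Finset.sum_comm, Fintype.sum_prod_type]
    refine Finset.sum_congr rfl fun i _ => Finset.sum_congr rfl fun e _ => ?_
    simp
  · beta_reduce
    rw [← hk (x ∘ π) hx (y ∘ π) hy]
    rw [Finset.sum_comm, Fintype.sum_prod_type]
    refine Finset.sum_congr rfl fun i _ => Finset.sum_congr rfl fun e _ => ?_
    rw [Finset.sum_eq_single (π i)]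
    · simp
    · intro b _ hb
      simp [Ne.symm hb]
    · intro h; exact absurd (Finset.mem_univ _) h

/-- OR of two partial functions on disjoint variables. -/
theorem KC.or {A₁ B₁ : Set (ι → Bool)} {A₂ B₂ : Set (κ → Bool)} (hc : 0 ≤ c)
    (h₁ : KC A₁ B₁ (fun _ _ => 1) c) (h₂ : KC A₂ B₂ (fun _ _ => 1) c) :
    KC (ι := ι ⊕ κ) {x | x ∘ Sum.inl ∈ A₁ ∨ x ∘ Sum.inr ∈ A₂}
      {y | y ∘ Sum.inl ∈ B₁ ∧ y ∘ Sum.inr ∈ B₂} (fun _ _ => 1) (√2 * c) := by
  classical
  have h2 : (0 : ℝ) < √2 := Real.sqrt_pos.2 (by norm_num)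
  have h22 : (√2 : ℝ) ^ 2 = 2 := Real.sq_sqrt (by norm_num)
  have key := KC.lab (ι := ι ⊕ κ)
    (A := {x | x ∘ Sum.inl ∈ A₁ ∨ x ∘ Sum.inr ∈ A₂})
    (B := {y | y ∘ Sum.inl ∈ B₁ ∧ y ∘ Sum.inr ∈ B₂}) (L := Bool)
    (fun x l => if (l = true ↔ x ∘ Sum.inl ∈ A₁) then 1 else 0) (fun _ _ => 1 / √2) hc
    (fun x _ => ?_) (fun y _ => ?_) (fun _ _ _ => 1) (fun l => ?_)
  · refine (key.smul (√2) hc).mono subset_rfl subset_rfl (by rw [abs_of_pos h2]) |>.congr ?_
    intro x _ y _
    rw [Fintype.sum_bool]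
    by_cases hx : x ∘ Sum.inl ∈ A₁
    · simp [hx, h2.ne']
    · simp [hx, h2.ne']
  · rw [Fintype.sum_bool]
    by_cases hx : x ∘ Sum.inl ∈ A₁
    · simp [hx]
    · simp [hx]
  · rw [Fintype.sum_bool, div_pow, h22]
    norm_num
  · cases l with
    | true =>
      refine (h₁.comap (Sum.inl : ι → ι ⊕ κ)).mono ?_ ?_ le_rfl
      · rintro x ⟨_, hx⟩
        by_contra hn
        have hn' : ¬ (x ∘ Sum.inl ∈ A₁) := hn
        exact hx (by simp [hn'])
      · rintro y ⟨hy, _⟩
        exact hy.1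
    | false =>
      refine (h₂.comap (Sum.inr : κ → ι ⊕ κ)).mono ?_ ?_ le_rfl
      · rintro x ⟨hx, hx'⟩
        refine (Or.resolve_left hx ?_ : x ∘ Sum.inr ∈ A₂)
        intro hn
        exact hx' (by simp [hn])
      · rintro y ⟨hy, _⟩
        exact hy.2

/-- AND of two partial functions on disjoint variables. -/
theorem KC.and {A₁ B₁ : Set (ι → Bool)} {A₂ B₂ : Set (κ → Bool)} (hc : 0 ≤ c)
    (h₁ : KC A₁ B₁ (fun _ _ => 1) c) (h₂ : KC A₂ B₂ (fun _ _ => 1) c) :
    KC (ι := ι ⊕ κ) {x | x ∘ Sum.inl ∈ A₁ ∧ x ∘ Sum.inr ∈ A₂}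
      {y | y ∘ Sum.inl ∈ B₁ ∨ y ∘ Sum.inr ∈ B₂} (fun _ _ => 1) (√2 * c) := by
  have := (KC.or hc h₁.symm h₂.symm).symm
  exact this

/-- The difference of Hamming weights. -/
theorem KC.weight : KC (ι := ι) Set.univ Set.univ
    (fun x y => ∑ i, ((if x i then (1 : ℝ) else 0) - (if y i then 1 else 0)))
    (Fintype.card ι) := by
  refine ⟨Unit, inferInstance, fun _ _ _ => 1, fun y i _ => if y i then -1 else 1,
    fun x _ => ?_, fun y _ => ?_, fun x _ y _ => ?_⟩
  · simp
  · refine le_of_eq ?_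
    have : ∀ i, ∑ _e : Unit, ((if y i then (-1 : ℝ) else 1)) ^ 2 = 1 := by
      intro i
      by_cases h : y i <;> simp [h]
    simp_rw [this]
    simp
  · refine Finset.sum_congr rfl fun i _ => ?_
    cases hx : x i <;> cases hy : y i <;> simp [hy]

/-- The trivial bound for disjoint sets. -/
theorem KC.trivial (hAB : Disjoint A B) : KC A B (fun _ _ => 1) (Fintype.card ι) := by
  classical
  obtain ⟨r⟩ : Nonempty (ι ≃ Fin (Fintype.card ι)) := ⟨Fintype.equivFin ι⟩
  -- the prefix before `i`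
  set M : (ι → Bool) → ι → (ι → Bool) := fun x i j => if r j < r i then x j else false with hM
  refine ⟨ι → Bool, inferInstance, fun x i e => if e = M x i then 1 else 0,
    fun y i e => if e = M y i then 1 else 0, fun x _ => ?_, fun y _ => ?_, fun x hx y hy => ?_⟩
  · simp
  · simp
  · have hne : x ≠ y := fun h => Set.disjoint_left.1 hAB hx (h ▸ hy)
    have hS : (Finset.univ.filter fun i => x i ≠ y i).Nonempty := by
      obtain ⟨i, hi⟩ := Function.ne_iff.1 hne
      exact ⟨i, by simp [hi]⟩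
    obtain ⟨i₀, hi₀, hmin⟩ := Finset.exists_min_image _ r hS
    have hi₀' : x i₀ ≠ y i₀ := by simpa using hi₀
    have hmin' : ∀ j, x j ≠ y j → r i₀ ≤ r j := fun j hj => hmin j (by simp [hj])
    have h1 : ∀ i, ∑ e : ι → Bool, (if x i = y i then (0 : ℝ) else
        (if e = M x i then 1 else 0) * (if e = M y i then 1 else 0)) =
        if i = i₀ then 1 else 0 := by
      intro i
      by_cases hxy : x i = y i
      · have : i ≠ i₀ := fun h => hi₀' (h ▸ hxy)
        simp [hxy, this]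
      · simp only [hxy, if_false]
        by_cases hi : i = i₀
        · have hMM : M x i = M y i := by
            funext j
            simp only [hM]
            by_cases hj : r j < r i
            · simp only [hj, if_true]
              by_contra hne'
              exact absurd (hmin' j hne') (not_le.2 (hi ▸ hj))
            · simp [hj]
          rw [if_pos hi, Finset.sum_eq_single (M x i)]
          · simp [hMM]
          · intro e _ he
            simp [he]
          · intro h; exact absurd (Finset.mem_univ _) h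
        · rw [if_neg hi]
          have hMM : M x i ≠ M y i := by
            intro h
            have h2 := congrFun h i₀
            have h3 : r i₀ < r i := lt_of_le_of_ne (hmin' i hxy)
              (fun h => hi (r.injective h).symm)
            simp only [hM, h3, if_true] at h2
            exact hi₀' h2
          refine Finset.sum_eq_zero fun e _ => ?_
          by_cases he : e = M x i
          · have : e ≠ M y i := fun h => hMM (he ▸ h)
            simp [this]
          · simp [he]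
    simp_rw [h1]
    simp

/-- The cost of a nonempty pair is at least one. -/
theorem KC.one_le (h : KC A B (fun _ _ => 1) c) (hA : A.Nonempty) (hB : B.Nonempty) : 1 ≤ c := by
  obtain ⟨E, hE, u, v, h1, h2, h3⟩ := h
  obtain ⟨x, hx⟩ := hA
  obtain ⟨y, hy⟩ := hB
  have h4 := h3 x hx y hy
  have h5 : ∑ i, ∑ e, (if x i = y i then 0 else u x i e * v y i e) ≤
      ∑ i, ∑ e, ((u x i e) ^ 2 / 2 + (v y i e) ^ 2 / 2) := by
    refine Finset.sum_le_sum fun i _ => Finset.sum_le_sum fun e _ => ?_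
    split_ifs
    · positivity
    · nlinarith [sq_nonneg (u x i e - v y i e)]
  simp only [Finset.sum_add_distrib, ← Finset.sum_div] at h5
  have h6 := h1 x hx
  have h7 := h2 y hy
  linarith

theorem KC.nonneg_left (h : KC A B K c) (hA : A.Nonempty) : 0 ≤ c := by
  obtain ⟨E, hE, u, v, h1, h2, h3⟩ := h
  obtain ⟨x, hx⟩ := hA
  exact (Finset.sum_nonneg fun i _ => Finset.sum_nonneg fun e _ => sq_nonneg _).trans (h1 x hx)

end H8AP
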