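import Pool.Agent.H8.AP.KC

/-!
# Nodes of the floor tree: definitions
-/

open Finset

namespace H8AP

/-- An integer valued function on a finite cube. -/
structure Node where
  ι : Type
  inst : Fintype ι
  V : (ι → Bool) → ℤ

attribute [instance] Node.inst

/-- The parent of two independent copies: the rounded average, with the unit multiplied by `g`. -/
def Node.step (N : Node) (g : ℕ) : Node where
  ι := N.ι ⊕ N.ι
  inst := inferInstance
  V := fun x => (N.V (x ∘ Sum.inl) + N.V (x ∘ Sum.inr)) / (2 * (g : ℤ))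

/-- Cost of the gap thresholds `θ + t ≤ V` against `V ≤ θ`. -/
def Cost (N : Node) (t : ℕ) (c : ℝ) : Prop :=
  ∀ θ : ℤ, KC {x | θ + t ≤ N.V x} {x | N.V x ≤ θ} (fun _ _ => 1) c

/-- Location of `V` in labelled windows `[a l, a l + d]` by unit vectors. -/
def Loc (N : Node) (d : ℕ) (c : ℝ) : Prop :=
  ∃ (L : Type) (_ : Fintype L) (a : L → ℤ) (φ : (N.ι → Bool) → L → ℝ),
    (∀ x, ∑ l, (φ x l) ^ 2 = 1) ∧
    (∀ x l, φ x l ≠ 0 → a l ≤ N.V x ∧ N.V x ≤ a l + d) ∧
    KC Set.univ Set.univ (fun x y => 1 - ∑ l, φ x l * φ y l) c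

/-- Linear kernel: a real function within `ε` of `V` with difference cost `L`. -/
def LinK (N : Node) (ε L : ℝ) : Prop :=
  ∃ y : (N.ι → Bool) → ℝ, (∀ x, |y x - N.V x| ≤ ε) ∧
    KC Set.univ Set.univ (fun x x' => y x - y x') L

/-- `V` takes values in `[0, P]`. -/
def Bdd (N : Node) (P : ℕ) : Prop := ∀ x, 0 ≤ N.V x ∧ N.V x ≤ P

/-- Weight of a point. -/
def wt {ι : Type} [Fintype ι] (x : ι → Bool) : ℕ := (Finset.univ.filter fun i => x i = true).card

end H8AP
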