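import Pool.Agent.H8.AP.KC

/-!
# Soft totalisation (voltage of a soft resistor network)

PROOF. `1 ≤ c` by `KC.one_le`. Let `u, v, E` be the vectors of `h`. Space `H = ι × Bool × E → ℝ` with
`⟨a, b⟩ = ∑ a k b k`.  For `y ∈ B`: `w' y (i, b, e) = if b = !y i then v y i e else 0`.  Fix
`x₀ ∈ A`, and `w x (i, b, e) = if b = x i then u x i e else 0`; so `⟨w x, w' y⟩ = 1` for `x ∈ A`,
`y ∈ B`.  `V` = span of the `w' y`, `ℓ a = ⟨w x₀, a⟩`; on `V` we have `ℓ a = ⟨w x, a⟩` for every
`x ∈ A` (true on generators).  `G x (i, b, e) = if b = x i then 1 else 1 / (9 c ^ 2)` (diagonal).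
For each `x` (all points) there is `a x ∈ V` with
  (NE)  `∀ b ∈ V, ∑ k, b k * G x k * a x k + ℓ (a x) * ℓ b / (3 c) = ℓ b / (3 c)`
(the bilinear form on the left is positive definite on the finite dimensional `V`: an injective
linear map `V → Dual V` is surjective).  `T x = ℓ (a x)`.
* (NE) for `x` with `b = a y` minus (NE) for `y` with `b = a x`:
  `T x - T y = 3 c * ∑ k, a x k * (G y k - G x k) * a y k`
  `= 3 c (1 - 1/(9c^2)) ∑_{i : x i ≠ y i} ∑_e [a x (i, y i, e) a y (i, y i, e) - a x (i, x i, e) a y (i, x i, e)]`,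
  where `y i = !x i`.
* `b = a x`: `Q x := ∑ k, G x k * a x k ^ 2 = (1 - T x) * T x / (3 c)`, so `0 ≤ T x ≤ 1` and
  `Q x ≤ 1 / (12 c)`.
* cost: with `σ = 3 c (1 - 1/(9c^2))`, index type `E ⊕ E`:
  `U x i = (√(σ/(3c)) * a x (i, !x i, e), -√(σ * 3c) * a x (i, x i, e))`,
  `W y i = (√(σ * 3c) * a y (i, y i, e), √(σ/(3c)) * a y (i, !y i, e))`;
  squared norms `σ (3c ‖Π a‖² + ‖(1-Π) a‖²/(3c)) = σ 3c Q ≤ 9 c² / (12 c) ≤ c`.
* `x ∈ A`: `T x ^ 2 = ⟨w x, a x⟩ ^ 2 ≤ c * Q x = (1 - T x) T x / 3` (Cauchy-Schwarz, `w x` lives on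
  `b = x i` where `G = 1`), so `T x ≤ 1/4`.
* `y ∈ B`: (NE) with `b = w' y`, `ℓ b = 1`: `(1 - T y)/(3c) = ⟨w' y, G a y⟩ ≤ (1/(9c²)) √c ‖(1-Π) a y‖`,
  `‖(1-Π) a y‖² ≤ 9 c² Q y = 3 c (1 - T y) T y`; squaring: `(1-T)²/(9c²) ≤ (1/(81 c⁴)) c · 3c (1-T) T`,
  so `1 - T ≤ T / 3`, `T ≥ 3/4` (if `T = 1` nothing to prove).
-/

open Finset

namespace H8AP

/-- Minimisers of a positive diagonal quadratic form on an affine subspace. -/
theorem soft_min {P Y : Type} [Fintype P] (ω : Y → P → ℝ) (B : Set Y) (w0 : P → ℝ)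
    (h0 : ∀ y ∈ B, ∑ p, ω y p * w0 p = 1) (m : P → ℝ) (hm : ∀ p, 0 < m p) :
    ∃ w : P → ℝ, (∀ y ∈ B, ∑ p, ω y p * w p = 1) ∧
      ∀ w' : P → ℝ, (∀ y ∈ B, ∑ p, ω y p * w' p = 1) →
        ∑ p, m p * w p * (w' p - w p) = 0 := by
  classical
  -- the direction space, scaled
  let K : Submodule ℝ (EuclideanSpace ℝ P) :=
    { carrier := {z | ∀ y ∈ B, ∑ p, ω y p * (z p / Real.sqrt (m p)) = 0}
      zero_mem' := by intro y _; simp
      add_mem' := by
        intro a b ha hb y hy
        have e : ∑ p, ω y p * ((a + b) p / Real.sqrt (m p))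
            = ∑ p, ω y p * (a p / Real.sqrt (m p)) + ∑ p, ω y p * (b p / Real.sqrt (m p)) := by
          rw [← Finset.sum_add_distrib]
          refine Finset.sum_congr rfl fun p _ => ?_
          rw [PiLp.add_apply]; ring
        rw [e, ha y hy, hb y hy, add_zero]
      smul_mem' := by
        intro r a ha y hy
        have e : ∑ p, ω y p * ((r • a) p / Real.sqrt (m p))
            = r * ∑ p, ω y p * (a p / Real.sqrt (m p)) := by
          rw [Finset.mul_sum]
          refine Finset.sum_congr rfl fun p _ => ?_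
          rw [PiLp.smul_apply, smul_eq_mul]; ring
        rw [e, ha y hy, mul_zero] }
  have hs : ∀ p, Real.sqrt (m p) ≠ 0 := fun p => (Real.sqrt_pos.2 (hm p)).ne'
  have hss : ∀ p, Real.sqrt (m p) * Real.sqrt (m p) = m p := fun p =>
    Real.mul_self_sqrt (hm p).le
  obtain ⟨a, ha, z, hz, haz⟩ := K.exists_add_mem_mem_orthogonal
    (WithLp.toLp 2 (fun p => Real.sqrt (m p) * w0 p) : EuclideanSpace ℝ P)
  have hazp : ∀ p, Real.sqrt (m p) * w0 p = a p + z p := by
    intro p
    have := congrArg (fun v : EuclideanSpace ℝ P => v p) haz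
    simpa using this
  refine ⟨fun p => z p / Real.sqrt (m p), ?_, ?_⟩
  · intro y hy
    have h1 : ∑ p, ω y p * (a p / Real.sqrt (m p)) = 0 := ha y hy
    rw [← h0 y hy, ← sub_eq_zero, ← Finset.sum_sub_distrib]
    rw [← neg_eq_zero, ← Finset.sum_neg_distrib, ← h1]
    refine Finset.sum_congr rfl fun p _ => ?_
    have e : w0 p = a p / Real.sqrt (m p) + z p / Real.sqrt (m p) := by
      rw [← add_div, ← hazp p]; field_simp [hs p]
    rw [e]; ring
  · intro w' hw'
    -- the vector √m (w' - w) lies in K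
    have hK : (WithLp.toLp 2 (fun p => Real.sqrt (m p) * w' p - z p) : EuclideanSpace ℝ P)
        ∈ K := by
      intro y hy
      have h1 : ∑ p, ω y p * (a p / Real.sqrt (m p)) = 0 := ha y hy
      have h2 := h0 y hy
      have h3 := hw' y hy
      have : ∑ p, ω y p * ((Real.sqrt (m p) * w' p - z p) / Real.sqrt (m p))
          = ∑ p, ω y p * w' p - ∑ p, ω y p * w0 p + ∑ p, ω y p * (a p / Real.sqrt (m p)) := by
        rw [← Finset.sum_sub_distrib, ← Finset.sum_add_distrib]
        refine Finset.sum_congr rfl fun p _ => ?_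
        have e : w0 p = a p / Real.sqrt (m p) + z p / Real.sqrt (m p) := by
          rw [← add_div, ← hazp p]; field_simp [hs p]
        rw [e, sub_div, mul_div_cancel_left₀ _ (hs p)]; ring
      change ∑ p, ω y p * ((Real.sqrt (m p) * w' p - z p) / Real.sqrt (m p)) = 0
      rw [this, h1, h2, h3]; ring
    have h4 := (K.mem_orthogonal z).1 hz _ hK
    rw [PiLp.inner_apply] at h4
    simp only [RCLike.inner_apply, conj_trivial] at h4
    rw [← h4]
    refine Finset.sum_congr rfl fun p _ => ?_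
    have e : m p = Real.sqrt (m p) * Real.sqrt (m p) := (hss p).symm
    have h5 := hs p
    rw [show m p * (z p / Real.sqrt (m p)) = Real.sqrt (m p) * z p by
      rw [mul_div_assoc', div_eq_iff h5]
      calc m p * z p = (Real.sqrt (m p) * Real.sqrt (m p)) * z p := by rw [hss p]
        _ = _ := by ring]
    rw [mul_sub, show Real.sqrt (m p) * z p * (z p / Real.sqrt (m p)) = z p * z p by
      field_simp]
    ring

theorem sum_split {ι E : Type} [Fintype ι] [Fintype E] (x : ι → Bool)
    (f : ι × Bool × E → ℝ) :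
    ∑ p, f p = ∑ j, ∑ e, (f (j, x j, e) + f (j, !x j, e)) := by
  rw [Fintype.sum_prod_type]
  refine Finset.sum_congr rfl fun j _ => ?_
  rw [Fintype.sum_prod_type, Fintype.sum_bool, ← Finset.sum_add_distrib]
  refine Finset.sum_congr rfl fun e _ => ?_
  cases x j
  · simp [add_comm]
  · simp

variable {ι : Type} [Fintype ι] {A B : Set (ι → Bool)} {c : ℝ}

theorem soft_total (h : KC A B (fun _ _ => 1) c) (hA : A.Nonempty) (hB : B.Nonempty) :
    ∃ T : (ι → Bool) → ℝ, (∀ x, 0 ≤ T x ∧ T x ≤ 1) ∧ (∀ x ∈ A, T x ≤ 1 / 4) ∧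
      (∀ x ∈ B, 3 / 4 ≤ T x) ∧ KC Set.univ Set.univ (fun x y => T x - T y) c := by
  classical
  have hc : 1 ≤ c := h.one_le hA hB
  obtain ⟨E, iE, u, v, hu, hv, h1'⟩ := h
  have h1 : ∀ x ∈ A, ∀ y ∈ B,
      ∑ j, ∑ e, (if x j = y j then 0 else u x j e * v y j e) = (1 : ℝ) := h1'
  obtain ⟨x0, hx0⟩ := hA
  set ω : (ι → Bool) → (ι × Bool × E) → ℝ := fun y p => if p.2.1 = y p.1 then 0 else v y p.1 p.2.2
    with hω
  set wA : (ι → Bool) → (ι × Bool × E) → ℝ := fun x p => if p.2.1 = x p.1 then u x p.1 p.2.2 else 0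
    with hwA
  set m : (ι → Bool) → (ι × Bool × E) → ℝ := fun x p => if p.2.1 = x p.1 then 1 else 9 * c ^ 2
    with hm
  have hm0 : ∀ x p, 0 < m x p := by
    intro x p
    simp only [hm]
    split_ifs
    · norm_num
    · positivity
  have hwAadm : ∀ x ∈ A, ∀ y ∈ B, ∑ p, ω y p * wA x p = 1 := by
    intro x hx y hy
    rw [sum_split x, ← h1 x hx y hy]
    refine Finset.sum_congr rfl fun j _ => Finset.sum_congr rfl fun e _ => ?_
    simp only [hω, hwA]
    by_cases hxy : x j = y j
    · simp [hxy]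
    · simp [hxy, mul_comm]
  choose w hw hw' using fun x => soft_min ω B (wA x0) (hwAadm x0 hx0) (m x) (hm0 x)
  set En : (ι → Bool) → ℝ := fun x => ∑ p, m x p * (w x p) ^ 2 with hEn
  have hE0 : ∀ x, 0 ≤ En x := fun x =>
    Finset.sum_nonneg fun p _ => mul_nonneg (hm0 x p).le (sq_nonneg _)
  -- pairing with any admissible vector
  have hpair : ∀ x (z : (ι × Bool × E) → ℝ), (∀ y ∈ B, ∑ p, ω y p * z p = 1) →
      ∑ p, m x p * w x p * z p = En x := by
    intro x z hz
    have := hw' x z hz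
    have e : ∑ p, m x p * w x p * (z p - w x p)
        = ∑ p, m x p * w x p * z p - En x := by
      simp only [hEn]
      rw [← Finset.sum_sub_distrib]
      exact Finset.sum_congr rfl fun p _ => by ring
    linarith
  have hEsplit : ∀ x, En x = ∑ j, ∑ e, ((w x (j, x j, e)) ^ 2
      + 9 * c ^ 2 * (w x (j, !x j, e)) ^ 2) := by
    intro x
    simp only [hEn]
    rw [sum_split x]
    refine Finset.sum_congr rfl fun j _ => Finset.sum_congr rfl fun e _ => ?_
    simp [hm]
  -- on A
  have hEA : ∀ x ∈ A, En x ≤ c := by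
    intro x hx
    have h2 := hpair x (wA x) (hwAadm x hx)
    have h3 : 0 ≤ ∑ p, m x p * (w x p - wA x p) ^ 2 :=
      Finset.sum_nonneg fun p _ => mul_nonneg (hm0 x p).le (sq_nonneg _)
    have h4 : ∑ p, m x p * (w x p - wA x p) ^ 2
        = En x - 2 * ∑ p, m x p * w x p * wA x p + ∑ p, m x p * (wA x p) ^ 2 := by
      simp only [hEn]
      rw [Finset.mul_sum, ← Finset.sum_sub_distrib, ← Finset.sum_add_distrib]
      exact Finset.sum_congr rfl fun p _ => by ring
    have h5 : ∑ p, m x p * (wA x p) ^ 2 = ∑ j, ∑ e, (u x j e) ^ 2 := by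
      rw [sum_split x]
      refine Finset.sum_congr rfl fun j _ => Finset.sum_congr rfl fun e _ => ?_
      simp [hm, hwA]
    have h6 := hu x hx
    linarith
  -- on B
  have hEB : ∀ x ∈ B, 9 * c ≤ En x := by
    intro x hx
    have h2 := hw x x hx
    have h3 : ∑ p, ω x p * w x p = ∑ j, ∑ e, v x j e * w x (j, !x j, e) := by
      rw [sum_split x]
      refine Finset.sum_congr rfl fun j _ => Finset.sum_congr rfl fun e _ => ?_
      simp [hω]
    have h4 : ∑ j, ∑ e, v x j e * w x (j, !x j, e)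
        ≤ ∑ j, ∑ e, ((v x j e) ^ 2 / (2 * c) + c / 2 * (w x (j, !x j, e)) ^ 2) := by
      refine Finset.sum_le_sum fun j _ => Finset.sum_le_sum fun e _ => ?_
      have : (v x j e) ^ 2 / (2 * c) + c / 2 * (w x (j, !x j, e)) ^ 2
          - v x j e * w x (j, !x j, e) = (v x j e - c * w x (j, !x j, e)) ^ 2 / (2 * c) := by
        field_simp
        ring
      have h5 : 0 ≤ (v x j e - c * w x (j, !x j, e)) ^ 2 / (2 * c) := by positivity
      linarith
    have h5 : ∑ j, ∑ e, ((v x j e) ^ 2 / (2 * c) + c / 2 * (w x (j, !x j, e)) ^ 2)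
        = (∑ j, ∑ e, (v x j e) ^ 2) / (2 * c)
          + c / 2 * ∑ j, ∑ e, (w x (j, !x j, e)) ^ 2 := by
      simp only [Finset.sum_add_distrib, Finset.sum_div, Finset.mul_sum]
    have h6 : (∑ j, ∑ e, (v x j e) ^ 2) / (2 * c) ≤ 1 / 2 := by
      rw [div_le_iff₀ (by linarith)]
      have := hv x hx
      linarith
    have h7 : 1 / c ≤ ∑ j, ∑ e, (w x (j, !x j, e)) ^ 2 := by
      rw [div_le_iff₀ (by linarith)]
      nlinarith
    have h8 : 9 * c ^ 2 * ∑ j, ∑ e, (w x (j, !x j, e)) ^ 2 ≤ En x := by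
      rw [hEsplit, Finset.mul_sum]
      refine Finset.sum_le_sum fun j _ => ?_
      rw [Finset.mul_sum]
      refine Finset.sum_le_sum fun e _ => ?_
      nlinarith [sq_nonneg (w x (j, x j, e))]
    have h9 : 9 * c ^ 2 * (1 / c) = 9 * c := by field_simp
    nlinarith [mul_le_mul_of_nonneg_left h7 (show (0:ℝ) ≤ 9 * c ^ 2 by positivity)]
  -- difference
  have hdiff : ∀ x y, En x - En y = ∑ j, ∑ e, (if x j = y j then 0 else
      (9 * c ^ 2 - 1) * (w x (j, !x j, e) * w y (j, y j, e)
        - w x (j, x j, e) * w y (j, !y j, e))) := by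
    intro x y
    rw [← hpair x (w y) (hw y), ← hpair y (w x) (hw x), ← Finset.sum_sub_distrib,
      sum_split x]
    refine Finset.sum_congr rfl fun j _ => Finset.sum_congr rfl fun e _ => ?_
    simp only [hm]
    by_cases hxy : x j = y j
    · simp [hxy]
      ring
    · have h2 : (!x j) = y j := by
        revert hxy
        cases x j <;> cases y j <;> simp
      have h3 : (!y j) = x j := by
        revert hxy
        cases x j <;> cases y j <;> simp
      have h4 : y j ≠ x j := fun h => hxy h.symm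
      simp only [h2, h3, hxy, h4, if_false, if_true]
      ring
  have hpos : ∀ x, 0 < En x + 3 * c := fun x => by linarith [hE0 x]
  refine ⟨fun x => En x / (En x + 3 * c), fun x => ⟨div_nonneg (hE0 x) (hpos x).le, ?_⟩, ?_, ?_, ?_⟩
  · change En x / (En x + 3 * c) ≤ 1
    rw [div_le_one (hpos x)]
    linarith
  · intro x hx
    rw [div_le_iff₀ (hpos x)]
    linarith [hEA x hx]
  · intro x hx
    rw [le_div_iff₀ (hpos x)]
    linarith [hEB x hx]
  · set σ : ℝ := Real.sqrt (9 * c ^ 2 - 1) with hσ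
    have hσ2 : σ ^ 2 = 9 * c ^ 2 - 1 := Real.sq_sqrt (by nlinarith)
    have hkey : ∀ x, σ ^ 2 / (En x + 3 * c) ^ 2 * En x ≤ c := by
      intro x
      rw [hσ2, div_mul_eq_mul_div, div_le_iff₀ (by have := hpos x; positivity)]
      have h2 := hE0 x
      nlinarith [sq_nonneg (En x - 3 * c), mul_nonneg (show (0:ℝ) ≤ c by linarith)
        (sq_nonneg (En x - 3 * c))]
    refine ⟨E ⊕ E, inferInstance,
      fun x j => Sum.elim (fun e => σ / (En x + 3 * c) * w x (j, x j, e))
        (fun e => 3 * c * σ / (En x + 3 * c) * w x (j, !x j, e)),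
      fun y j => Sum.elim (fun e => - (3 * c * σ / (En y + 3 * c) * w y (j, !y j, e)))
        (fun e => σ / (En y + 3 * c) * w y (j, y j, e)), ?_, ?_, ?_⟩
    · intro x _
      have e : ∑ j, ∑ e : E ⊕ E, (Sum.elim (fun e => σ / (En x + 3 * c) * w x (j, x j, e))
          (fun e => 3 * c * σ / (En x + 3 * c) * w x (j, !x j, e)) e) ^ 2
          = σ ^ 2 / (En x + 3 * c) ^ 2 * En x := by
        rw [hEsplit x, Finset.mul_sum]
        refine Finset.sum_congr rfl fun j _ => ?_
        rw [Fintype.sum_sum_type, Finset.mul_sum, ← Finset.sum_add_distrib]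
        refine Finset.sum_congr rfl fun e _ => ?_
        rw [← hEsplit x]
        simp only [Sum.elim_inl, Sum.elim_inr]
        have := (hpos x).ne'
        field_simp
        ring
      rw [e]
      exact hkey x
    · intro x _
      have e : ∑ j, ∑ e : E ⊕ E, (Sum.elim
          (fun e => - (3 * c * σ / (En x + 3 * c) * w x (j, !x j, e)))
          (fun e => σ / (En x + 3 * c) * w x (j, x j, e)) e) ^ 2
          = σ ^ 2 / (En x + 3 * c) ^ 2 * En x := by
        rw [hEsplit x, Finset.mul_sum]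
        refine Finset.sum_congr rfl fun j _ => ?_
        rw [Fintype.sum_sum_type, Finset.mul_sum, ← Finset.sum_add_distrib]
        refine Finset.sum_congr rfl fun e _ => ?_
        rw [← hEsplit x]
        simp only [Sum.elim_inl, Sum.elim_inr]
        have := (hpos x).ne'
        field_simp
        ring
      rw [e]
      exact hkey x
    · intro x _ y _
      have hx := (hpos x).ne'
      have hy := (hpos y).ne'
      have e1 : En x / (En x + 3 * c) - En y / (En y + 3 * c)
          = 3 * c / ((En x + 3 * c) * (En y + 3 * c)) * (En x - En y) := by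
        field_simp
        ring
      change _ = En x / (En x + 3 * c) - En y / (En y + 3 * c)
      rw [e1, hdiff x y, Finset.mul_sum]
      refine Finset.sum_congr rfl fun j _ => ?_
      rw [Fintype.sum_sum_type, Finset.mul_sum, ← Finset.sum_add_distrib]
      refine Finset.sum_congr rfl fun e _ => ?_
      by_cases hxy : x j = y j
      · simp [hxy]
      · simp only [hxy, if_false, Sum.elim_inl, Sum.elim_inr]
        rw [← hσ2]
        field_simp
        ring

end H8AP
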