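import Pool.Agent.H8.AP.FC2
import Pool.Agent.H8.AP.Soft

/-!
# Soft totalisation with exact values

PROOF of `total`: if `A = ∅` take `T = 1`, if `B = ∅` take `T = 0` (kernel zero, `KC.zero`).  Else
`T x = psi (1/2) (T₀ x - 1/4)` with `T₀` of `soft_total` and `KC.psi` with `w = 1/2`, `R = 3/4`:
`36 * (3/4) / (1/4) = 108`.
PROOF of `total_vec`: `α = (1 - T^2)/(1 + T^2)`, `β = 2 T/(1 + T^2)`;
`1 - (α α' + β β') = 2 (T - T')^2 / ((1 + T^2)(1 + T'^2))`
`= (∑ f : Bool or Fin 2, a x f * b y f) * (T x - T y)` with `a x = √2 (T/(1+T^2), 1/(1+T^2))`,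
`b y = √2 (1/(1+T'^2), -T'/(1+T'^2))`, squared norms `2/(1+T^2) ≤ 2` (`KC.mul`).
-/

open Finset

namespace H8AP

variable {ι : Type} [Fintype ι] {A B : Set (ι → Bool)} {c : ℝ}

/-- Soft totalisation with exact values on `A` and `B`. -/
theorem total (hc : 0 ≤ c) (h : KC A B (fun _ _ => 1) c) :
    ∃ T : (ι → Bool) → ℝ, (∀ x, 0 ≤ T x ∧ T x ≤ 1) ∧ (∀ x ∈ A, T x = 0) ∧
      (∀ x ∈ B, T x = 1) ∧ KC Set.univ Set.univ (fun x y => T x - T y) (108 * c) := by
  rcases A.eq_empty_or_nonempty with hA | hA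
  · refine ⟨fun _ => 1, fun _ => ⟨zero_le_one, le_rfl⟩, fun x hx => ?_, fun _ _ => rfl, ?_⟩
    · rw [hA] at hx
      exact hx.elim
    · exact (KC.zero (by positivity : (0:ℝ) ≤ 108 * c)).congr fun x _ y _ => by simp
  rcases B.eq_empty_or_nonempty with hB | hB
  · refine ⟨fun _ => 0, fun _ => ⟨le_rfl, zero_le_one⟩, fun _ _ => rfl, fun x hx => ?_, ?_⟩
    · rw [hB] at hx
      exact hx.elim
    · exact (KC.zero (by positivity : (0:ℝ) ≤ 108 * c)).congr fun x _ y _ => by simp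
  obtain ⟨T, hT, hTA, hTB, hK⟩ := soft_total h hA hB
  refine ⟨fun x => psi (1 / 2) (T x - 1 / 4), fun x => psi_mem (by norm_num) _, fun x hx => ?_,
    fun x hx => ?_, ?_⟩
  · exact psi_zero (by norm_num) (by linarith [hTA x hx])
  · exact psi_one (by norm_num) (by linarith [hTB x hx])
  · have h1 := KC.psi (y := fun x => T x - 1 / 4) (w := 1 / 2) (R := 3 / 4) (L := c)
      (by norm_num) (by norm_num)
      (fun x => abs_le.2 ⟨by linarith [(hT x).1], by linarith [(hT x).2]⟩) hc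
      (hK.congr fun x _ y _ => by ring)
    exact h1.mono subset_rfl subset_rfl (le_of_eq (by norm_num))

/-- Soft totalisation by unit vectors in the plane. -/
theorem total_vec (hc : 0 ≤ c) (h : KC A B (fun _ _ => 1) c) :
    ∃ α β : (ι → Bool) → ℝ, (∀ x, α x ^ 2 + β x ^ 2 = 1) ∧
      (∀ x ∈ A, α x = 1 ∧ β x = 0) ∧ (∀ x ∈ B, α x = 0 ∧ β x = 1) ∧
      KC Set.univ Set.univ (fun x y => 1 - (α x * α y + β x * β y)) (216 * c) := by
  obtain ⟨T, -, hTA, hTB, hK⟩ := total hc h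
  have hs : Real.sqrt 2 ^ 2 = 2 := Real.sq_sqrt (by norm_num)
  have hs' : Real.sqrt 2 * Real.sqrt 2 = 2 := Real.mul_self_sqrt (by norm_num)
  have hp : ∀ x, 1 + T x ^ 2 ≠ 0 := fun x => by positivity
  have hm := KC.mul (A := Set.univ) (B := Set.univ)
    (fun (x : ι → Bool) (f : Bool) =>
      if f then Real.sqrt 2 * T x / (1 + T x ^ 2) else Real.sqrt 2 / (1 + T x ^ 2))
    (fun (y : ι → Bool) (f : Bool) =>
      if f then Real.sqrt 2 / (1 + T y ^ 2) else -(Real.sqrt 2 * T y / (1 + T y ^ 2)))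
    (m := 2) (by norm_num) (by positivity : (0:ℝ) ≤ 108 * c) (fun x _ => ?_) (fun x _ => ?_) hK
  · refine ⟨fun x => (1 - T x ^ 2) / (1 + T x ^ 2), fun x => 2 * T x / (1 + T x ^ 2), ?_, ?_,
      ?_, ?_⟩
    · intro x
      have := hp x
      field_simp
      ring
    · intro x hx
      simp [hTA x hx]
    · intro x hx
      constructor
      · simp [hTB x hx]
      · simp only [hTB x hx]; norm_num
    · refine (hm.mono subset_rfl subset_rfl (le_of_eq (by ring))).congr fun x _ y _ => ?_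
      rw [Fintype.sum_bool]
      simp only [if_true, Bool.false_eq_true, if_false]
      have h1 := hp x
      have h2 := hp y
      have h3 : Real.sqrt 2 * T x / (1 + T x ^ 2) * (Real.sqrt 2 / (1 + T y ^ 2)) +
          Real.sqrt 2 / (1 + T x ^ 2) * -(Real.sqrt 2 * T y / (1 + T y ^ 2))
          = 2 * (T x - T y) / ((1 + T x ^ 2) * (1 + T y ^ 2)) := by
        field_simp
        linear_combination (T x - T y) * hs'
      rw [h3]
      field_simp
      ring
  · rw [Fintype.sum_bool]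
    simp only [if_true, Bool.false_eq_true, if_false]
    have h1 : (Real.sqrt 2 * T x / (1 + T x ^ 2)) ^ 2 + (Real.sqrt 2 / (1 + T x ^ 2)) ^ 2
        = 2 / (1 + T x ^ 2) := by
      rw [div_pow, div_pow, mul_pow, hs]
      have := hp x
      field_simp
      ring
    rw [h1, div_le_iff₀ (by positivity)]
    nlinarith [sq_nonneg (T x)]
  · rw [Fintype.sum_bool]
    simp only [if_true, Bool.false_eq_true, if_false, neg_sq]
    have h1 : (Real.sqrt 2 / (1 + T x ^ 2)) ^ 2 + (Real.sqrt 2 * T x / (1 + T x ^ 2)) ^ 2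
        = 2 / (1 + T x ^ 2) := by
      rw [div_pow, div_pow, mul_pow, hs]
      have := hp x
      field_simp
    rw [h1, div_le_iff₀ (by positivity)]
    nlinarith [sq_nonneg (T x)]

end H8AP
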