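import Pool.Agent.H8.AP.NodeD
import Pool.Agent.H8.AP.Tot

/-!
# (L1) Location by successive gap tests

PROOF of `Loc.of_cost`.  Induction on `P - d` (downwards from `d = P`, window `[0, P]`, one label,
`φ = 1`, kernel `0`; for `P ≤ d` the same).  Step from windows of length `d + 1` (cost `C`) to
length `d`: for each label `l` let `α l, β l` be `total_vec` of
`KC {V ≤ a l} {a l + (d+1) ≤ V} 1 (f (d+1))` (the symmetric form of `Cost N (d+1) (f (d+1))` at
`θ = a l`).  New labels `L × Bool`, `a' (l, false) = a l`, `a' (l, true) = a l + 1`,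
`φ' x (l, false) = φ x l * α l x`, `φ' x (l, true) = φ x l * β l x`.  Valid: if
`φ' x (l, false) ≠ 0` then `a l ≤ V x ≤ a l + d + 1` and `V x ≠ a l + d + 1` because otherwise
`α l x = 0`; similarly `β`.  Kernel: `1 - ∑ φ' φ' = (1 - ∑ φ φ) + ∑ l, φ x l φ y l (1 - (α α + β β))`,
`KC.add` and `KC.lab`.
-/

open Finset

namespace H8AP

variable {N : Node} {d P : ℕ} {c : ℝ}

private theorem L1_base (hP : Bdd N P) (hd : P ≤ d) : Loc N d 0 := by
  refine ⟨Unit, inferInstance, fun _ => 0, fun _ _ => 1, fun x => by simp, fun x _ _ => ?_, ?_⟩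
  · have h := hP x
    have h1 : (P : ℤ) ≤ d := by exact_mod_cast hd
    exact ⟨h.1, by linarith [h.2]⟩
  · exact (KC.zero le_rfl).congr fun x _ y _ => by simp

private theorem L1_step {C : ℝ} (h0 : 0 ≤ c) (hC : Cost N (d + 1) c) (h : Loc N (d + 1) C) :
    Loc N d (C + 216 * c) := by
  obtain ⟨L, hL, a, φ, h1, h2, h3⟩ := h
  have ht : ∀ l : L, ∃ p : ((N.ι → Bool) → ℝ) × ((N.ι → Bool) → ℝ),
      (∀ x, p.1 x ^ 2 + p.2 x ^ 2 = 1) ∧
      (∀ x, N.V x ≤ a l → p.1 x = 1 ∧ p.2 x = 0) ∧
      (∀ x, a l + ((d + 1 : ℕ) : ℤ) ≤ N.V x → p.1 x = 0 ∧ p.2 x = 1) ∧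
      KC Set.univ Set.univ (fun x y => 1 - (p.1 x * p.1 y + p.2 x * p.2 y)) (216 * c) := by
    intro l
    obtain ⟨α, β, g1, g2, g3, g4⟩ := total_vec h0 (hC (a l)).symm
    exact ⟨(α, β), g1, g2, g3, g4⟩
  choose p p1 p2 p3 p4 using ht
  refine ⟨L × Bool, inferInstance, fun q => a q.1 + (if q.2 then 1 else 0),
    fun x q => φ x q.1 * (if q.2 then (p q.1).2 x else (p q.1).1 x), fun x => ?_, ?_, ?_⟩
  · rw [Fintype.sum_prod_type, ← h1 x]
    refine Finset.sum_congr rfl fun l _ => ?_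
    rw [Fintype.sum_bool]
    simp only [if_true, Bool.false_eq_true, if_false]
    have := p1 l x
    calc (φ x l * (p l).2 x) ^ 2 + (φ x l * (p l).1 x) ^ 2
        = (φ x l) ^ 2 * ((p l).1 x ^ 2 + (p l).2 x ^ 2) := by ring
      _ = (φ x l) ^ 2 := by rw [this, mul_one]
  · rintro x ⟨l, b⟩ hb
    have hφ : φ x l ≠ 0 := left_ne_zero_of_mul hb
    have hp : (if b then (p l).2 x else (p l).1 x) ≠ 0 := right_ne_zero_of_mul hb
    obtain ⟨w1, w2⟩ := h2 x l hφ
    cases b with
    | false =>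
      simp only [Bool.false_eq_true, if_false] at hp ⊢
      refine ⟨by linarith, ?_⟩
      by_contra hcon
      push Not at hcon
      exact hp (p3 l x (by push_cast; linarith)).1
    | true =>
      simp only [if_true] at hp ⊢
      push_cast at w2
      refine ⟨?_, by linarith⟩
      by_contra hcon
      push Not at hcon
      exact hp (p2 l x (by linarith)).2
  · have k1 := KC.lab (A := Set.univ) (B := Set.univ) φ φ (c := 216 * c) (by positivity)
      (fun x _ => (h1 x).le) (fun y _ => (h1 y).le)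
      (fun l x y => 1 - ((p l).1 x * (p l).1 y + (p l).2 x * (p l).2 y))
      (fun l => (p4 l).mono (Set.subset_univ _) (Set.subset_univ _) le_rfl)
    refine (h3.add k1).congr fun x _ y _ => ?_
    rw [Fintype.sum_prod_type]
    have e1 : ∀ l, ∑ b : Bool, φ x (l, b).1 * (if (l, b).2 then (p (l, b).1).2 x else (p (l, b).1).1 x) *
        (φ y (l, b).1 * (if (l, b).2 then (p (l, b).1).2 y else (p (l, b).1).1 y)) =
        φ x l * φ y l - φ x l * φ y l * (1 - ((p l).1 x * (p l).1 y + (p l).2 x * (p l).2 y)) := by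
      intro l
      rw [Fintype.sum_bool]
      simp only [if_true, Bool.false_eq_true, if_false]
      ring
    rw [Finset.sum_congr rfl fun l _ => e1 l, Finset.sum_sub_distrib]
    ring

theorem Loc.of_cost (hP : Bdd N P) (f : ℕ → ℝ) (hf : ∀ t, 0 ≤ f t)
    (hc : ∀ t, d < t → t ≤ P → Cost N t (f t)) :
    Loc N d (216 * ∑ t ∈ Finset.Ioc d P, f t) := by
  by_cases hd : P ≤ d
  · rw [Finset.Ioc_eq_empty (by omega), Finset.sum_empty, mul_zero]
    exact L1_base hP hd
  push Not at hd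
  obtain ⟨k, hk⟩ : ∃ k, P = d + k := ⟨P - d, by omega⟩
  clear hd
  induction k generalizing d with
  | zero =>
    rw [Finset.Ioc_eq_empty (by omega), Finset.sum_empty, mul_zero]
    exact L1_base hP (by omega)
  | succ k ih =>
    have h1 := ih (d := d + 1) (fun t ht ht' => hc t (by omega) ht') (by omega)
    have h2 := L1_step (hf (d + 1)) (hc (d + 1) (by omega) (by omega)) h1
    have e1 : ∑ t ∈ Finset.Ioc d P, f t = f (d + 1) + ∑ t ∈ Finset.Ioc (d + 1) P, f t := by
      have e2 : Finset.Ioc d P = insert (d + 1) (Finset.Ioc (d + 1) P) := by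
        ext t
        simp only [Finset.mem_Ioc, Finset.mem_insert]
        omega
      rw [e2, Finset.sum_insert (by simp)]
    rw [e1]
    have e3 : 216 * (f (d + 1) + ∑ t ∈ Finset.Ioc (d + 1) P, f t) =
        216 * ∑ t ∈ Finset.Ioc (d + 1) P, f t + 216 * f (d + 1) := by ring
    rw [e3]
    exact h2

end H8AP
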