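import Mathlib

/-!
# Path counts of the recursion
-/

open Finset

namespace H8AP

/-- Path counts: `W (s+1) k = W s k + ν ∑_{k' < k} W s k'`. -/
noncomputable def W (ν : ℝ) : ℕ → ℕ → ℝ
  | 0, k => if k = 0 then 1 else 0
  | s + 1, k => W ν s k + ν * ∑ k' ∈ Finset.range k, W ν s k'

theorem W_nonneg {ν : ℝ} (hν : 0 ≤ ν) (s k : ℕ) : 0 ≤ W ν s k := by
  induction s generalizing k with
  | zero => simp only [W]; split_ifs <;> norm_num
  | succ s ih =>
    simp only [W]
    exact add_nonneg (ih k) (mul_nonneg hν (Finset.sum_nonneg fun k' _ => ih k'))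

theorem W_zero_right {ν : ℝ} (s : ℕ) : W ν s 0 = 1 := by
  induction s with
  | zero => simp [W]
  | succ s ih => simp [W, ih]

theorem W_le {ν lam : ℝ} (hν : 0 ≤ ν) (hl : 1 < lam) (s k : ℕ) :
    W ν s k ≤ lam ^ k * (1 + ν / (lam - 1)) ^ s := by
  have h1 : 0 < lam - 1 := by linarith
  induction s generalizing k with
  | zero =>
    simp only [W, pow_zero, mul_one]
    split_ifs with h
    · simp [h]
    · positivity
  | succ s ih =>
    simp only [W]
    have h2 : 0 ≤ (1 + ν / (lam - 1)) ^ s := by positivity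
    have h3 : ∑ k' ∈ Finset.range k, W ν s k'
        ≤ (∑ k' ∈ Finset.range k, lam ^ k') * (1 + ν / (lam - 1)) ^ s := by
      rw [Finset.sum_mul]
      exact Finset.sum_le_sum fun k' _ => ih k'
    have h4 : ∑ k' ∈ Finset.range k, lam ^ k' ≤ lam ^ k / (lam - 1) := by
      rw [geom_sum_eq (by linarith), div_le_div_iff_of_pos_right h1]
      linarith
    calc W ν s k + ν * ∑ k' ∈ Finset.range k, W ν s k'
        ≤ lam ^ k * (1 + ν / (lam - 1)) ^ s
          + ν * (lam ^ k / (lam - 1) * (1 + ν / (lam - 1)) ^ s) := by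
          refine add_le_add (ih k) (mul_le_mul_of_nonneg_left ?_ hν)
          exact h3.trans (mul_le_mul_of_nonneg_right h4 h2)
      _ = lam ^ k * (1 + ν / (lam - 1)) ^ (s + 1) := by
          rw [pow_succ]; ring

/-- The path count in the range that matters. -/
theorem W_exp {ν : ℝ} (hν : 0 ≤ ν) {J s k : ℕ} (hk : 4 * k ≤ J) (hs : 2 * s ≤ J) :
    W ν s k ≤ Real.exp ((ν + 1) * √((J : ℝ) * k)) := by
  rcases Nat.eq_zero_or_pos k with rfl | hk0
  · rw [W_zero_right]; simp
  have hJ : 0 < J := by omega
  have hk' : (0 : ℝ) < k := by exact_mod_cast hk0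
  have hJ' : (0 : ℝ) < J := by exact_mod_cast hJ
  set lam : ℝ := √((J : ℝ) / k) with hlam
  have hl2 : 2 ≤ lam := by
    rw [hlam]
    apply Real.le_sqrt_of_sq_le
    rw [le_div_iff₀ hk']
    have : (4 * k : ℝ) ≤ J := by exact_mod_cast hk
    linarith
  have hl0 : 0 < lam := by linarith
  have hsq : lam ^ 2 = J / k := Real.sq_sqrt (by positivity)
  have hq : √((J : ℝ) * k) = k * lam := by
    rw [Real.sqrt_eq_iff_mul_self_eq (by positivity) (by positivity)]
    have : k * lam * (k * lam) = k ^ 2 * lam ^ 2 := by ring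
    rw [this, hsq]
    field_simp
  have h1 := W_le hν (show 1 < lam by linarith) s k
  have h2 : lam ^ k ≤ Real.exp (k * lam) := by
    have h3 : lam ≤ Real.exp lam := by linarith [Real.add_one_le_exp lam]
    calc lam ^ k ≤ (Real.exp lam) ^ k := pow_le_pow_left₀ hl0.le h3 k
      _ = Real.exp (k * lam) := by rw [← Real.exp_nat_mul]
  have h3 : (1 + ν / (lam - 1)) ^ s ≤ Real.exp (ν * (k * lam)) := by
    have h4 : 1 + ν / (lam - 1) ≤ Real.exp (2 * ν / lam) := by
      have h5 : ν / (lam - 1) ≤ 2 * ν / lam := by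
        rw [div_le_div_iff₀ (by linarith) hl0]
        nlinarith
      linarith [Real.add_one_le_exp (2 * ν / lam)]
    have h6 : 0 ≤ 1 + ν / (lam - 1) := by
      have : 0 ≤ ν / (lam - 1) := div_nonneg hν (by linarith)
      linarith
    calc (1 + ν / (lam - 1)) ^ s ≤ (Real.exp (2 * ν / lam)) ^ s :=
          pow_le_pow_left₀ h6 h4 s
      _ = Real.exp (s * (2 * ν / lam)) := by rw [← Real.exp_nat_mul]
      _ ≤ Real.exp (ν * (k * lam)) := by
          apply Real.exp_le_exp.2
          have h7 : (2 * s : ℝ) ≤ J := by exact_mod_cast hs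
          have h8 : s * (2 * ν / lam) = ν * ((2 * s) / lam) := by ring
          rw [h8]
          apply mul_le_mul_of_nonneg_left _ hν
          rw [div_le_iff₀ hl0]
          have h9 : k * lam * lam = J := by
            have : k * lam * lam = k * lam ^ 2 := by ring
            rw [this, hsq]; field_simp
          linarith
  calc W ν s k ≤ lam ^ k * (1 + ν / (lam - 1)) ^ s := h1
    _ ≤ Real.exp (k * lam) * Real.exp (ν * (k * lam)) :=
        mul_le_mul h2 h3 (by
          have : 0 ≤ ν / (lam - 1) := div_nonneg hν (by linarith)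
          positivity) (Real.exp_pos _).le
    _ = Real.exp ((ν + 1) * √((J : ℝ) * k)) := by
        rw [← Real.exp_add, hq]; ring_nf

/-- Unrolling of the linear recursion. -/
theorem unroll {ν : ℝ} (hν : 0 ≤ ν) (X : ℕ → ℕ → ℝ) (d₀ D S : ℕ)
    (h : ∀ s, s < S → ∀ d, d₀ ≤ d → d ≤ D →
      X (s + 1) d ≤ X s d + ν * ∑ t ∈ Finset.Ioc d D, X s t) :
    ∀ s, s ≤ S → ∀ d, d₀ ≤ d → d ≤ D →
      X s d ≤ ∑ u ∈ Finset.Icc d D, W ν s (u - d) * X 0 u := by
  intro s
  induction s with
  | zero =>
    intro _ d _ hd
    rw [Finset.sum_eq_single_of_mem d (Finset.mem_Icc.2 ⟨le_rfl, hd⟩)]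
    · simp [W]
    · intro b hb hbd
      have : b - d ≠ 0 := by
        have := (Finset.mem_Icc.1 hb).1
        omega
      simp [W, this]
  | succ s ih =>
    intro hs d hd0 hd
    have ih' := ih (by omega)
    refine (h s (by omega) d hd0 hd).trans ?_
    have h1 : ∑ t ∈ Finset.Ioc d D, X s t
        ≤ ∑ u ∈ Finset.Icc d D, (∑ k ∈ Finset.range (u - d), W ν s k) * X 0 u := by
      calc ∑ t ∈ Finset.Ioc d D, X s t
          ≤ ∑ t ∈ Finset.Ioc d D, ∑ u ∈ Finset.Icc t D, W ν s (u - t) * X 0 u := by
            refine Finset.sum_le_sum fun t ht => ?_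
            have := Finset.mem_Ioc.1 ht
            exact ih' t (by omega) (by omega)
        _ = ∑ u ∈ Finset.Icc d D, ∑ t ∈ Finset.Ioc d u, W ν s (u - t) * X 0 u := by
            refine Finset.sum_comm' fun t u => ?_
            simp only [Finset.mem_Ioc, Finset.mem_Icc]
            omega
        _ = ∑ u ∈ Finset.Icc d D, (∑ k ∈ Finset.range (u - d), W ν s k) * X 0 u := by
            refine Finset.sum_congr rfl fun u hu => ?_
            rw [Finset.sum_mul]
            refine Finset.sum_nbij' (fun t => u - t) (fun k => u - k) ?_ ?_ ?_ ?_ ?_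
            · intro t ht
              simp only [Finset.mem_Ioc] at ht
              simp only [Finset.mem_range]
              omega
            · intro k hk
              simp only [Finset.mem_range] at hk
              simp only [Finset.mem_Ioc]
              omega
            · intro t ht
              simp only [Finset.mem_Ioc] at ht
              omega
            · intro k hk
              simp only [Finset.mem_range] at hk
              omega
            · intro t ht
              rfl
    calc X s d + ν * ∑ t ∈ Finset.Ioc d D, X s t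
        ≤ ∑ u ∈ Finset.Icc d D, W ν s (u - d) * X 0 u
          + ν * ∑ u ∈ Finset.Icc d D, (∑ k ∈ Finset.range (u - d), W ν s k) * X 0 u :=
          add_le_add (ih' d hd0 hd) (mul_le_mul_of_nonneg_left h1 hν)
      _ = ∑ u ∈ Finset.Icc d D, W ν (s + 1) (u - d) * X 0 u := by
          rw [Finset.mul_sum, ← Finset.sum_add_distrib]
          refine Finset.sum_congr rfl fun u _ => ?_
          simp only [W]
          ring

end H8AP
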