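import Mathlib
import Pool.Agent.H8.AP.NumW

/-!
# One epoch of the recursion

`Prof F j`: the profile at level `j`. `epoch`: from the profile right after a special level
to the profile of all levels up to the next special level.
-/

open Finset

namespace H8AP

/-- The profile at level `j`. -/
def Prof (F : ℕ → ℕ → ℝ) (j : ℕ) : Prop :=
  ∀ t, 2 ≤ t → t ≤ j + 1 → F j t ≤ Real.exp (-(√((j : ℝ) * ((t : ℝ) - 1)) / 16))

/-- The bound of the bottom linear kernel. -/
noncomputable def fl (P J₁ J : ℕ) : ℝ := 36 * ((P : ℝ) + J + 2) / (2 ^ J₁ * √2 ^ J)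

/-- The bound after summation. -/
noncomputable def fl' (P J₁ J : ℕ) : ℝ := (1 + 432 * (P : ℝ)) * fl P J₁ J

theorem fl_nonneg (P J₁ J : ℕ) : 0 ≤ fl P J₁ J := by unfold fl; positivity

theorem fl'_nonneg (P J₁ J : ℕ) : 0 ≤ fl' P J₁ J := by
  unfold fl'; have := fl_nonneg P J₁ J; positivity

theorem sqrt_two_pow (n : ℕ) : √2 ^ n = Real.exp (n * (Real.log 2 / 2)) := by
  have h : √2 = Real.exp (Real.log 2 / 2) := by
    rw [Real.sqrt_eq_rpow, Real.rpow_def_of_pos (by norm_num)]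
    ring_nf
  rw [h, ← Real.exp_nat_mul]

theorem sqrt_two_ratio {J s : ℕ} (hs : 2 * s ≤ J) :
    √2 ^ s / √2 ^ J ≤ Real.exp (-(173 / 1000 * (J : ℝ))) := by
  rw [sqrt_two_pow, sqrt_two_pow, ← Real.exp_sub]
  apply Real.exp_le_exp.2
  have h1 : (2 * s : ℝ) ≤ J := by exact_mod_cast hs
  have h2 := Real.log_two_gt_d9
  have h3 : (0 : ℝ) ≤ J := Nat.cast_nonneg J
  nlinarith

theorem far_num {P J₁ J s : ℕ} (hP : 16 ≤ P) (hP2 : P ^ 11 ≤ 2 ^ J₁) (hJP : J + 2 ≤ P)
    (hs : 2 * s ≤ J) :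
    √2 ^ s * (216 * (P * fl' P J₁ J)) ≤ Real.exp (-(173 / 1000 * (J : ℝ))) / P ^ 2 := by
  have h1 := sqrt_two_ratio hs
  have hP' : (16 : ℝ) ≤ P := by exact_mod_cast hP
  have hP2' : (P : ℝ) ^ 11 ≤ 2 ^ J₁ := by exact_mod_cast hP2
  have hJP' : (J : ℝ) + 2 ≤ P := by exact_mod_cast hJP
  have hq : (0 : ℝ) < √2 ^ J := by positivity
  have e : √2 ^ s * (216 * (P * fl' P J₁ J))
      = (√2 ^ s / √2 ^ J) * (216 * P * (1 + 432 * P) * 36 * (P + J + 2) / 2 ^ J₁) := by
    unfold fl' fl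
    field_simp
  rw [e, div_eq_mul_inv (Real.exp _)]
  apply mul_le_mul h1 _ (by positivity) (Real.exp_pos _).le
  rw [div_le_iff₀ (by positivity), inv_mul_eq_div, le_div_iff₀ (by positivity)]
  have hJ0 : (0 : ℝ) ≤ J := Nat.cast_nonneg J
  have a1 : 216 * (P : ℝ) * (1 + 432 * P) * 36 * (P + J + 2) ≤ 6734016 * P ^ 3 := by
    have b1 : (1 + 432 * (P : ℝ)) ≤ 433 * P := by linarith
    have b2 : (P : ℝ) + J + 2 ≤ 2 * P := by linarith
    calc 216 * (P : ℝ) * (1 + 432 * P) * 36 * (P + J + 2)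
        ≤ 216 * (P : ℝ) * (433 * P) * 36 * (2 * P) := by gcongr
      _ = 6734016 * P ^ 3 := by ring
  calc 216 * (P : ℝ) * (1 + 432 * P) * 36 * (P + J + 2) * P ^ 2
      ≤ 6734016 * P ^ 3 * P ^ 2 := by gcongr
    _ ≤ (P : ℝ) ^ 6 * P ^ 3 * P ^ 2 := by
        have : (6734016 : ℝ) ≤ P ^ 6 := by
          calc (6734016 : ℝ) ≤ 16 ^ 6 := by norm_num
            _ ≤ P ^ 6 := by gcongr
        gcongr
    _ = (P : ℝ) ^ 11 := by ring
    _ ≤ 2 ^ J₁ := hP2'

theorem fl'_num {P J₁ J : ℕ} (hP : 16 ≤ P) (hP2 : P ^ 11 ≤ 2 ^ J₁) (hJP : J + 2 ≤ P) :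
    fl' P J₁ J ≤ Real.exp (-(173 / 1000 * (J : ℝ))) / P := by
  have h := far_num hP hP2 hJP (s := 0) (by omega)
  have hP' : (16 : ℝ) ≤ P := by exact_mod_cast hP
  have h0 := fl'_nonneg P J₁ J
  rw [pow_zero, one_mul] at h
  have h2 : Real.exp (-(173 / 1000 * (J : ℝ))) / P ^ 2 ≤ Real.exp (-(173 / 1000 * (J : ℝ))) / P := by
    apply div_le_div_of_nonneg_left (Real.exp_pos _).le (by linarith)
    nlinarith
  have h3 : fl' P J₁ J ≤ 216 * (P * fl' P J₁ J) := by nlinarith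
  linarith

/-- The near field numerics. -/
theorem near_num {J D d : ℕ} {r : ℝ} (hJ : 2 ^ 34 ≤ J) (hd : 2 ≤ d) (hD : 2 ^ 29 * D ≤ J)
    (hdD : d ≤ D) (hr : r = √((J : ℝ) * ((d : ℝ) - 1))) :
    (J : ℝ) * (433 * (J + 1) * Real.exp (-(1615 * r))
      + Real.exp (-(173 / 1000 * (J : ℝ))) * Real.exp (433 * ((J : ℝ) / 2 ^ 14)))
      ≤ Real.exp (-(r / 8)) := by
  have hJ' : (2 : ℝ) ^ 34 ≤ J := by exact_mod_cast hJ
  have hd' : (2 : ℝ) ≤ d := by exact_mod_cast hd
  have hD' : (2 : ℝ) ^ 29 * D ≤ J := by exact_mod_cast hD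
  have hdD' : (d : ℝ) ≤ D := by exact_mod_cast hdD
  have hJ0 : (0 : ℝ) < J := by linarith [show (0 : ℝ) < 2 ^ 34 by norm_num]
  have hr2 : r ^ 2 = J * (d - 1) := by
    rw [hr]; exact Real.sq_sqrt (by nlinarith)
  have hr0 : 0 ≤ r := by rw [hr]; exact Real.sqrt_nonneg _
  have hJr : (J : ℝ) ≤ r ^ 2 := by rw [hr2]; nlinarith
  have hr1 : 1 ≤ r := by
    by_contra hlt
    push Not at hlt
    have : r ^ 2 < 1 := by nlinarith
    linarith [show (1 : ℝ) ≤ 2 ^ 34 by norm_num]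
  have hrJ : r ≤ J / 2 ^ 14 := by
    rw [hr]
    apply Real.sqrt_le_iff.2
    refine ⟨by positivity, ?_⟩
    have : (d : ℝ) - 1 ≤ J / 2 ^ 29 := by
      rw [le_div_iff₀ (by norm_num)]
      nlinarith
    calc (J : ℝ) * (d - 1) ≤ J * (J / 2 ^ 29) := by gcongr
      _ ≤ (J / 2 ^ 14) ^ 2 := by
        have h28 : (J / 2 ^ 14 : ℝ) ^ 2 = J * (J / 2 ^ 28) := by ring
        rw [h28]
        have : (J / 2 ^ 29 : ℝ) ≤ J / 2 ^ 28 := by
          apply div_le_div_of_nonneg_left hJ0.le (by norm_num) (by norm_num)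
        exact mul_le_mul_of_nonneg_left this hJ0.le
  -- first part
  have p1 : (J : ℝ) * (433 * (J + 1) * Real.exp (-(1615 * r))) ≤ 1 / 2 * Real.exp (-(r / 8)) := by
    have q1 : (1614 * r) ^ 4 / 24 ≤ Real.exp (1614 * r) := by
      have := Real.pow_div_factorial_le_exp (1614 * r) (by positivity) 4
      simpa [Nat.factorial] using this
    have q2 : 866 * (J : ℝ) * (J + 1) ≤ (1614 * r) ^ 4 / 24 := by
      have : (J : ℝ) + 1 ≤ 2 * r ^ 2 := by nlinarith
      calc 866 * (J : ℝ) * (J + 1) ≤ 866 * r ^ 2 * (2 * r ^ 2) := by gcongr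
        _ ≤ (1614 * r) ^ 4 / 24 := by
          have : (1614 * r) ^ 4 / 24 = (1614 ^ 4 / 24) * (r ^ 2 * r ^ 2) := by ring
          rw [this]
          have h4 : 0 ≤ r ^ 2 * r ^ 2 := by positivity
          nlinarith
    have q3 : Real.exp (-(1615 * r)) * Real.exp (1614 * r) ≤ Real.exp (-(r / 8)) := by
      rw [← Real.exp_add]
      apply Real.exp_le_exp.2
      linarith
    have q4 : 0 < Real.exp (-(1615 * r)) := Real.exp_pos _
    calc (J : ℝ) * (433 * (J + 1) * Real.exp (-(1615 * r)))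
        = 1 / 2 * (Real.exp (-(1615 * r)) * (866 * (J : ℝ) * (J + 1))) := by ring
      _ ≤ 1 / 2 * (Real.exp (-(1615 * r)) * Real.exp (1614 * r)) := by
          gcongr
          exact q2.trans q1
      _ ≤ 1 / 2 * Real.exp (-(r / 8)) := by gcongr
  -- second part
  have p2 : (J : ℝ) * (Real.exp (-(173 / 1000 * (J : ℝ))) * Real.exp (433 * ((J : ℝ) / 2 ^ 14)))
      ≤ 1 / 2 * Real.exp (-(r / 8)) := by
    have q1 : (J / 10 : ℝ) ^ 2 / 2 ≤ Real.exp (J / 10) := by
      have := Real.pow_div_factorial_le_exp (J / 10 : ℝ) (by positivity) 2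
      simpa [Nat.factorial] using this
    have q2 : 2 * (J : ℝ) ≤ (J / 10 : ℝ) ^ 2 / 2 := by
      have : (400 : ℝ) ≤ J := by linarith [show (400 : ℝ) ≤ 2 ^ 34 by norm_num]
      nlinarith
    have q3 : Real.exp (-(173 / 1000 * (J : ℝ))) * Real.exp (433 * ((J : ℝ) / 2 ^ 14))
        * Real.exp (J / 10) ≤ Real.exp (-(r / 8)) := by
      rw [← Real.exp_add, ← Real.exp_add]
      apply Real.exp_le_exp.2
      have : r / 8 ≤ J / 2 ^ 17 := by
        have h17 : (J : ℝ) / 2 ^ 17 = (J / 2 ^ 14) / 8 := by ring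
        rw [h17]
        gcongr
      have h5 : (433 * ((J : ℝ) / 2 ^ 14)) ≤ 27 / 1000 * J := by
        rw [← mul_div_assoc, div_le_iff₀ (by norm_num)]
        nlinarith
      have h6 : (J : ℝ) / 2 ^ 17 ≤ 1 / 1000 * J := by
        rw [div_le_iff₀ (by norm_num)]
        nlinarith
      linarith
    calc (J : ℝ) * (Real.exp (-(173 / 1000 * (J : ℝ))) * Real.exp (433 * ((J : ℝ) / 2 ^ 14)))
        = 1 / 2 * (Real.exp (-(173 / 1000 * (J : ℝ))) * Real.exp (433 * ((J : ℝ) / 2 ^ 14))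
          * (2 * J)) := by ring
      _ ≤ 1 / 2 * (Real.exp (-(173 / 1000 * (J : ℝ))) * Real.exp (433 * ((J : ℝ) / 2 ^ 14))
          * Real.exp (J / 10)) := by
          gcongr
          exact q2.trans q1
      _ ≤ 1 / 2 * Real.exp (-(r / 8)) := by gcongr
  calc (J : ℝ) * (433 * (J + 1) * Real.exp (-(1615 * r))
      + Real.exp (-(173 / 1000 * (J : ℝ))) * Real.exp (433 * ((J : ℝ) / 2 ^ 14)))
      = (J : ℝ) * (433 * (J + 1) * Real.exp (-(1615 * r)))
        + (J : ℝ) * (Real.exp (-(173 / 1000 * (J : ℝ))) * Real.exp (433 * ((J : ℝ) / 2 ^ 14))) := by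
        ring
    _ ≤ Real.exp (-(r / 8)) := by linarith

/-- The epoch lemma, core. -/
theorem epoch_core {F : ℕ → ℕ → ℝ} {P J₁ J D S : ℕ} (hF0 : ∀ j t, 0 ≤ F j t)
    (hstep : ∀ s, s < S → ∀ d, 1 ≤ d →
      F (J + 1 + s + 1) d ≤ F (J + 1 + s) d + 432 * ∑ t ∈ Finset.Ioc d P, F (J + 1 + s) t)
    (hDD : ∀ s, s ≤ S → ∀ d, 2 ≤ d →
      F (J + 1 + s) d ≤ √2 ^ s * (216 * ∑ t ∈ Finset.Icc d P, F (J + 1) t))
    (hP : 16 ≤ P) (hP2 : P ^ 11 ≤ 2 ^ J₁) (hJP : J + 2 ≤ P) (hJ : 2 ^ 34 ≤ J)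
    (hD : 2 ^ 29 * D ≤ J) (hD1 : 1 ≤ D) (hS : 2 * S + 2 ≤ J)
    (hbelow : ∀ d, 2 ≤ d → d ≤ D →
      F (J + 1) d ≤ 433 * ((J : ℝ) + 1) * Real.exp (-(2048 * √((J : ℝ) * ((d : ℝ) - 1))))
        + fl' P J₁ J)
    (habove : ∀ d, 2 ≤ d → D < d → F (J + 1) d ≤ fl' P J₁ J) :
    ∀ s, s ≤ S → Prof F (J + 1 + s) := by
  have hP' : (16 : ℝ) ≤ P := by exact_mod_cast hP
  have hP0 : (0 : ℝ) < P := by linarith
  have hJ0 : (0 : ℝ) ≤ J := Nat.cast_nonneg J
  set X0 : ℝ := Real.exp (-(173 / 1000 * (J : ℝ))) with hX0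
  have hX0p : 0 < X0 := Real.exp_pos _
  set B : ℝ := X0 / P with hB
  have hB0 : 0 ≤ B := by positivity
  have hflB : fl' P J₁ J ≤ B := fl'_num hP hP2 hJP
  -- far field
  have hfar : ∀ s, s ≤ S → ∀ t, 2 ≤ t → D < t → F (J + 1 + s) t ≤ X0 / P ^ 2 := by
    intro s hs t ht hDt
    refine (hDD s hs t ht).trans ((?_ : _ ≤ √2 ^ s * (216 * (P * fl' P J₁ J))).trans
      (far_num hP hP2 hJP (by omega)))
    have h1 : ∑ u ∈ Finset.Icc t P, F (J + 1) u ≤ P * fl' P J₁ J := by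
      calc ∑ u ∈ Finset.Icc t P, F (J + 1) u ≤ ∑ _u ∈ Finset.Icc t P, fl' P J₁ J := by
            refine Finset.sum_le_sum fun u hu => ?_
            have := Finset.mem_Icc.1 hu
            exact habove u (by omega) (by omega)
        _ = (Finset.Icc t P).card * fl' P J₁ J := by rw [Finset.sum_const, nsmul_eq_mul]
        _ ≤ P * fl' P J₁ J := by
            apply mul_le_mul_of_nonneg_right _ (fl'_nonneg P J₁ J)
            have : (Finset.Icc t P).card ≤ P := by rw [Nat.card_Icc]; omega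
            exact_mod_cast this
    gcongr
  have hfarsum : ∀ s, s ≤ S → ∑ t ∈ Finset.Ioc D P, F (J + 1 + s) t ≤ B := by
    intro s hs
    calc ∑ t ∈ Finset.Ioc D P, F (J + 1 + s) t ≤ ∑ _t ∈ Finset.Ioc D P, X0 / P ^ 2 := by
          refine Finset.sum_le_sum fun u hu => ?_
          have := Finset.mem_Ioc.1 hu
          exact hfar s hs u (by omega) (by omega)
      _ = (Finset.Ioc D P).card * (X0 / P ^ 2) := by rw [Finset.sum_const, nsmul_eq_mul]
      _ ≤ P * (X0 / P ^ 2) := by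
          apply mul_le_mul_of_nonneg_right _ (by positivity)
          have : (Finset.Ioc D P).card ≤ P := by rw [Nat.card_Ioc]; omega
          exact_mod_cast this
      _ = B := by rw [hB]; field_simp
  set X : ℕ → ℕ → ℝ := fun s t => if t ≤ D then F (J + 1 + s) t else B with hX
  have hunroll := unroll (ν := 432) (by norm_num) X 2 (D + 1) S (by
    intro s hs d hd2 hdD
    rcases Nat.lt_or_ge D d with h | h
    · have hd : d = D + 1 := by omega
      subst hd
      simp [hX]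
    · have h1 : ∑ t ∈ Finset.Ioc d (D + 1), X s t = ∑ t ∈ Finset.Ioc d D, F (J + 1 + s) t + B := by
        rw [← Finset.insert_Ioc_right_eq_Ioc_add_one (by omega : d ≤ D),
          Finset.sum_insert (by simp)]
        have : X s (D + 1) = B := by simp [hX]
        rw [this, add_comm]
        congr 1
        refine Finset.sum_congr rfl fun t ht => ?_
        have := (Finset.mem_Ioc.1 ht).2
        simp [hX, this]
      have h2 : ∑ t ∈ Finset.Ioc d P, F (J + 1 + s) t
          ≤ ∑ t ∈ Finset.Ioc d D, F (J + 1 + s) t + ∑ t ∈ Finset.Ioc D P, F (J + 1 + s) t := by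
        have hsub : Finset.Ioc d P ⊆ Finset.Ioc d D ∪ Finset.Ioc D P := by
          intro t ht
          simp only [Finset.mem_Ioc, Finset.mem_union] at ht ⊢
          omega
        refine (Finset.sum_le_sum_of_subset_of_nonneg hsub fun t _ _ => hF0 _ _).trans ?_
        rw [Finset.sum_union]
        rw [Finset.disjoint_left]
        intro t h1 h2
        simp only [Finset.mem_Ioc] at h1 h2
        omega
      have h3 := hstep s hs d (by omega)
      have h4 := hfarsum s hs.le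
      rw [h1]
      have h5 : X (s + 1) d = F (J + 1 + s + 1) d := by simp [hX, h, add_assoc]
      have h6 : X s d = F (J + 1 + s) d := by simp [hX, h]
      rw [h5, h6]
      linarith)
  -- initial profile
  have hinit : ∀ u, 2 ≤ u → u ≤ D + 1 → X 0 u
      ≤ 433 * ((J : ℝ) + 1) * Real.exp (-(2048 * √((J : ℝ) * ((u : ℝ) - 1)))) + B := by
    intro u hu huD
    rcases Nat.lt_or_ge D u with h | h
    · have h1 : X 0 u = B := by simp [hX]; omega
      rw [h1]
      have : 0 ≤ 433 * ((J : ℝ) + 1) * Real.exp (-(2048 * √((J : ℝ) * ((u : ℝ) - 1)))) := by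
        positivity
      linarith
    · have h1 : X 0 u = F (J + 1) u := by simp [hX, h]
      rw [h1]
      linarith [hbelow u hu h]
  intro s hs t ht2 htj
  have hs1 : ((J + 1 + s : ℕ) : ℝ) ≤ 3 / 2 * J := by
    have : 2 * (J + 1 + s) ≤ 3 * J := by omega
    have h2 : (2 * (J + 1 + s) : ℝ) ≤ 3 * J := by exact_mod_cast this
    push_cast
    linarith
  have ht2' : (2 : ℝ) ≤ t := by exact_mod_cast ht2
  rcases Nat.lt_or_ge D t with hDt | htD
  · -- far
    have h1 := hfar s hs t ht2 hDt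
    refine h1.trans ?_
    have h2 : X0 / P ^ 2 ≤ X0 := by
      rw [div_le_iff₀ (by positivity)]
      have : (1 : ℝ) ≤ P ^ 2 := by nlinarith
      nlinarith
    refine h2.trans ?_
    rw [hX0]
    apply Real.exp_le_exp.2
    have h3 : √(((J + 1 + s : ℕ) : ℝ) * ((t : ℝ) - 1)) ≤ 3 / 2 * J := by
      apply Real.sqrt_le_iff.2
      refine ⟨by positivity, ?_⟩
      have h4 : (t : ℝ) - 1 ≤ ((J + 1 + s : ℕ) : ℝ) := by
        have : (t : ℝ) ≤ ((J + 1 + s : ℕ) : ℝ) + 1 := by exact_mod_cast htj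
        linarith
      have h5 : (0 : ℝ) ≤ ((J + 1 + s : ℕ) : ℝ) := Nat.cast_nonneg _
      nlinarith
    linarith
  · -- near
    have h1 := hunroll s hs t ht2 (by omega)
    have h2 : X s t = F (J + 1 + s) t := by simp [hX, htD]
    rw [h2] at h1
    set r : ℝ := √((J : ℝ) * ((t : ℝ) - 1)) with hr
    have hr0 : 0 ≤ r := Real.sqrt_nonneg _
    have hterm : ∀ u ∈ Finset.Icc t (D + 1), W 432 s (u - t) * X 0 u
        ≤ 433 * ((J : ℝ) + 1) * Real.exp (-(1615 * r))
          + X0 * Real.exp (433 * ((J : ℝ) / 2 ^ 14)) := by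
      intro u hu
      have hu' := Finset.mem_Icc.1 hu
      have hw := W_exp (ν := 432) (by norm_num) (J := J) (s := s) (k := u - t) (by omega) (by omega)
      have hw0 := W_nonneg (ν := 432) (by norm_num) s (u - t)
      have hx := hinit u (by omega) hu'.2
      have hut : (t : ℝ) ≤ u := by exact_mod_cast hu'.1
      have hcast : ((u - t : ℕ) : ℝ) = u - t := by
        rw [Nat.cast_sub hu'.1]
      set q : ℝ := √((J : ℝ) * ((u : ℝ) - 1)) with hq
      have hrq : r ≤ q := Real.sqrt_le_sqrt (by nlinarith)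
      have hkq : √((J : ℝ) * ((u - t : ℕ) : ℝ)) ≤ q := by
        apply Real.sqrt_le_sqrt
        rw [hcast]
        nlinarith
      have hkJ : √((J : ℝ) * ((u - t : ℕ) : ℝ)) ≤ J / 2 ^ 14 := by
        apply Real.sqrt_le_iff.2
        refine ⟨by positivity, ?_⟩
        have h5 : ((u - t : ℕ) : ℝ) ≤ J / 2 ^ 28 := by
          rw [le_div_iff₀ (by norm_num)]
          have : (u - t) * 2 ^ 28 ≤ J := by omega
          exact_mod_cast this
        calc (J : ℝ) * ((u - t : ℕ) : ℝ) ≤ J * (J / 2 ^ 28) := by gcongr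
          _ = (J / 2 ^ 14) ^ 2 := by ring
      calc W 432 s (u - t) * X 0 u
          ≤ W 432 s (u - t) * (433 * ((J : ℝ) + 1) * Real.exp (-(2048 * q)) + B) :=
            mul_le_mul_of_nonneg_left hx hw0
        _ ≤ Real.exp ((432 + 1) * √((J : ℝ) * ((u - t : ℕ) : ℝ)))
            * (433 * ((J : ℝ) + 1) * Real.exp (-(2048 * q)) + B) :=
            mul_le_mul_of_nonneg_right hw (by positivity)
        _ = 433 * ((J : ℝ) + 1) * (Real.exp ((432 + 1) * √((J : ℝ) * ((u - t : ℕ) : ℝ)))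
            * Real.exp (-(2048 * q))) + B * Real.exp ((432 + 1) * √((J : ℝ) * ((u - t : ℕ) : ℝ))) := by
            ring
        _ ≤ 433 * ((J : ℝ) + 1) * Real.exp (-(1615 * r))
          + X0 * Real.exp (433 * ((J : ℝ) / 2 ^ 14)) := by
            have g1 : Real.exp ((432 + 1) * √((J : ℝ) * ((u - t : ℕ) : ℝ)))
                * Real.exp (-(2048 * q)) ≤ Real.exp (-(1615 * r)) := by
              rw [← Real.exp_add]
              apply Real.exp_le_exp.2
              linarith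
            have g2 : B ≤ X0 := by
              rw [hB, div_le_iff₀ hP0]
              nlinarith
            have g3 : Real.exp ((432 + 1) * √((J : ℝ) * ((u - t : ℕ) : ℝ)))
                ≤ Real.exp (433 * ((J : ℝ) / 2 ^ 14)) := by
              apply Real.exp_le_exp.2
              linarith
            have g4 : (0 : ℝ) ≤ 433 * ((J : ℝ) + 1) := by positivity
            exact add_le_add (mul_le_mul_of_nonneg_left g1 g4)
              (mul_le_mul g2 g3 (Real.exp_pos _).le hX0p.le)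
    have hsum : ∑ u ∈ Finset.Icc t (D + 1), W 432 s (u - t) * X 0 u
        ≤ J * (433 * ((J : ℝ) + 1) * Real.exp (-(1615 * r))
          + X0 * Real.exp (433 * ((J : ℝ) / 2 ^ 14))) := by
      refine (Finset.sum_le_sum hterm).trans ?_
      rw [Finset.sum_const, nsmul_eq_mul]
      apply mul_le_mul_of_nonneg_right _ (by positivity)
      have : (Finset.Icc t (D + 1)).card ≤ J := by rw [Nat.card_Icc]; omega
      exact_mod_cast this
    have hnum := near_num hJ ht2 hD htD hr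
    refine h1.trans (hsum.trans (hnum.trans ?_))
    apply Real.exp_le_exp.2
    have h3 : √(((J + 1 + s : ℕ) : ℝ) * ((t : ℝ) - 1)) ≤ 2 * r := by
      apply Real.sqrt_le_iff.2
      refine ⟨by positivity, ?_⟩
      have h4 : (2 * r) ^ 2 = 4 * (J * (t - 1)) := by
        rw [mul_pow, hr, Real.sq_sqrt (by nlinarith)]; norm_num
      rw [h4]
      nlinarith
    linarith

end H8AP
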