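import Pool.Agent.H8.AP.Cst
import Pool.Agent.H8.AP.Num
import Pool.Agent.H8.AP.Poly
import Pool.Agent.H87.AM.Robust

/-!
# The upper bound

PROOF. Given `n ≥ 1`, `h` least with `2^h ≥ 8 n` (`h ≤ log2 n + 4`); `J, P, G` from `numeric`,
`u = 2^J`, tree `T = tree u P G h`, `n' = 2^h (u P)` leaves.  `π : T.ι → Fin n` with all fibres of size
`⌊n'/n⌋` or `⌊n'/n⌋ + 1` (`i mod n` through an equivalence with `Fin n'`).
`F x = decide (8 (h+1) ≤ T.V (x ∘ π))`.  `cst T 1 ≤ 3 N₀ √2^h` by `numeric` applied to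
`c j t = cst (tree u P G j) t` (`c j 0` only has to be `≥ 0`), so `Cost T 1 (4 N₀ √2^h)`; threshold
`θ = 8 (h+1) - 1`; `KC.comap π`; `exists_poly` with `W = 4 N₀ √2^h ≤ C √n (h+2)^κ`, `√2^h ≤ √(16 n)`.
Weights: `tree_wt`: with `M = u 2^h ∏ G`, `n' = 16 (h+1) M`: `F x = true` implies
`n'/2 ≤ wt (x ∘ π)`; `F x = false` implies `wt (x ∘ π) < M (8(h+1) + h) ≤ (9/16) n'`.
`4 cnt true x ≤ n` implies `wt (x ∘ π) ≤ (n/4)(n'/n + 1)` `≤ (9/32) n' < n'/2`, symmetric for `false`.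
-/

open Finset

namespace H8AP

/-- A map onto `Fin n` with fibres of size at most `m / n + 1`. -/
theorem exists_pi {ι : Type} [Fintype ι] {n : ℕ} (hn : 1 ≤ n) : ∃ π : ι → Fin n, ∀ i : Fin n,
    (Finset.univ.filter fun j => π j = i).card ≤ Fintype.card ι / n + 1 := by
  classical
  set e := Fintype.equivFin ι
  refine ⟨fun j => ⟨(e j : ℕ) % n, Nat.mod_lt _ hn⟩, fun i => ?_⟩
  have h1 : (Finset.univ.filter fun j : ι => (⟨(e j : ℕ) % n, Nat.mod_lt _ hn⟩ : Fin n) = i).card =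
      ((Finset.range (Fintype.card ι)).filter fun k => k ≡ (i : ℕ) [MOD n]).card := by
    refine Finset.card_bij (fun j _ => (e j : ℕ)) (fun j hj => ?_) (fun a _ b _ hab => ?_) fun k hk => ?_
    · simp only [Finset.mem_filter, Finset.mem_univ, true_and, Finset.mem_range] at hj ⊢
      refine ⟨(e j).2, ?_⟩
      have h2 := congrArg Fin.val hj
      simp only [] at h2
      unfold Nat.ModEq
      rw [h2, Nat.mod_eq_of_lt i.2]
    · exact e.injective (Fin.ext hab)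
    · simp only [Finset.mem_filter, Finset.mem_range] at hk
      refine ⟨e.symm ⟨k, hk.1⟩, ?_, by simp⟩
      simp only [Finset.mem_filter, Finset.mem_univ, true_and, Equiv.apply_symm_apply]
      apply Fin.ext
      have h2 : k % n = (i : ℕ) % n := hk.2
      rw [Nat.mod_eq_of_lt i.2] at h2
      exact h2
  rw [h1, ← Nat.count_eq_card_filter_range, Nat.count_modEq_card _ hn]
  split_ifs <;> omega

/-- The number of preimages. -/
theorem cnt_pi {ι : Type} [Fintype ι] {n K : ℕ} {π : ι → Fin n}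
    (hπ : ∀ i : Fin n, (Finset.univ.filter fun j => π j = i).card ≤ K) (c : Bool) (x : Fin n → Bool) :
    (Finset.univ.filter fun j => (x ∘ π) j = c).card ≤ K * H87AM.cnt c x := by
  classical
  unfold H87AM.cnt
  refine Finset.card_le_mul_card_image_of_maps_to (f := π) (fun j hj => ?_) K fun i hi => ?_
  · simp only [Finset.mem_filter, Finset.mem_univ, true_and, Function.comp_apply] at hj ⊢
    exact hj
  · refine (Finset.card_le_card ?_).trans (hπ i)
    intro j hj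
    simp only [Finset.mem_filter, Finset.mem_univ, true_and] at hj ⊢
    exact hj.2

theorem wt_compl {ι : Type} [Fintype ι] (y : ι → Bool) :
    wt y + (Finset.univ.filter fun j => y j = false).card = Fintype.card ι := by
  have h := H87AM.cnt_add y
  exact h

/-- The total function for `n`. -/
theorem exists_fun (n : ℕ) (hn : 1 ≤ n) (h J P : ℕ) (G : ℕ → ℕ) (hh : 8 * n ≤ 2 ^ h) (hG : ∀ j, 1 ≤ G j)
    (hP : P = 16 * (h + 1) * ∏ i ∈ Finset.range h, G i) {c : ℝ} (hc : Cost (tree (2 ^ J) P G h) 1 c) :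
    ∃ F : (Fin n → Bool) → Bool, KC {x | F x = true} {x | F x = false} (fun _ _ => 1) c ∧
      (∀ x, 4 * H87AM.cnt false x ≤ n → F x = true) ∧ (∀ x, 4 * H87AM.cnt true x ≤ n → F x = false) := by
  classical
  set T := tree (2 ^ J) P G h with hT
  obtain ⟨π, hπ⟩ := exists_pi (ι := T.ι) hn
  have hcard : Fintype.card T.ι = 2 ^ h * (2 ^ J * P) := tree_card h
  set M : ℕ := 2 ^ J * 2 ^ h * ∏ i ∈ Finset.range h, G i with hM
  have hu : 1 ≤ 2 ^ J := Nat.one_le_two_pow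
  have hM1 : 1 ≤ M := Nat.one_le_iff_ne_zero.2 (mul_ne_zero (by positivity)
    (Finset.prod_ne_zero_iff.2 fun i _ => by have := hG i; omega))
  have hn' : Fintype.card T.ι = 16 * (h + 1) * M := by
    rw [hcard, hP, hM]
    ring
  have hbig : 8 * n ≤ Fintype.card T.ι := by
    rw [hn']
    have h1 : 2 ^ h ≤ M := by
      rw [hM]
      have h2 : 1 ≤ ∏ i ∈ Finset.range h, G i := Nat.one_le_iff_ne_zero.2
        (Finset.prod_ne_zero_iff.2 fun i _ => by have := hG i; omega)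
      calc 2 ^ h = 1 * 2 ^ h * 1 := by ring
        _ ≤ _ := Nat.mul_le_mul (Nat.mul_le_mul hu le_rfl) h2
    calc 8 * n ≤ 2 ^ h := hh
      _ ≤ M := h1
      _ = 1 * M := by ring
      _ ≤ _ := Nat.mul_le_mul (by omega) le_rfl
  set m := Fintype.card T.ι with hm
  -- the number of preimages of few points
  have hfew : ∀ (c : Bool) (x : Fin n → Bool), 4 * H87AM.cnt c x ≤ n →
      32 * (Finset.univ.filter fun j => (x ∘ π) j = c).card ≤ 9 * m := by
    intro c x hx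
    have h1 := cnt_pi hπ c x
    have h2 : n * (m / n) ≤ m := Nat.mul_div_le m n
    calc 32 * (Finset.univ.filter fun j => (x ∘ π) j = c).card ≤ 32 * ((m / n + 1) * H87AM.cnt c x) :=
          Nat.mul_le_mul le_rfl h1
      _ = 8 * ((m / n + 1) * (4 * H87AM.cnt c x)) := by ring
      _ ≤ 8 * ((m / n + 1) * n) := Nat.mul_le_mul le_rfl (Nat.mul_le_mul le_rfl hx)
      _ = 8 * (n * (m / n)) + 8 * n := by ring
      _ ≤ 9 * m := by omega
  refine ⟨fun x => decide (8 * (h + 1 : ℤ) ≤ T.V (x ∘ π)), ?_, fun x hx => ?_, fun x hx => ?_⟩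
  · refine KC.mono (KC.comap π (hc (8 * (h + 1 : ℤ) - 1))) ?_ ?_ le_rfl
    · intro x hx
      have h1 : 8 * (h + 1 : ℤ) ≤ T.V (x ∘ π) := of_decide_eq_true hx
      show 8 * (h + 1 : ℤ) - 1 + ((1 : ℕ) : ℤ) ≤ T.V (x ∘ π)
      push_cast
      omega
    · intro x hx
      have h1 : ¬ 8 * (h + 1 : ℤ) ≤ T.V (x ∘ π) := of_decide_eq_false hx
      show T.V (x ∘ π) ≤ 8 * (h + 1 : ℤ) - 1
      omega
  · refine decide_eq_true ?_
    by_contra hV
    have h1 := (tree_wt (P := P) hu hG h (x ∘ π)).2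
    have h2 := hfew false x hx
    have h3 := wt_compl (x ∘ π)
    have h4 : (wt (x ∘ π) : ℤ) < (M : ℤ) * (9 * (h + 1)) := by
      refine lt_of_lt_of_le h1 (mul_le_mul_of_nonneg_left ?_ (Nat.cast_nonneg _))
      have h5 : (tree (2 ^ J) P G h).V (x ∘ π) ≤ 8 * (h + 1) - 1 := by
        change T.V (x ∘ π) ≤ 8 * (h + 1) - 1
        omega
      linarith
    have h6 : wt (x ∘ π) < M * (9 * (h + 1)) := by exact_mod_cast h4
    have h7 : 16 * (M * (9 * (h + 1))) = 9 * m := by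
      rw [hn']
      ring
    omega
  · refine decide_eq_false fun hV => ?_
    have h1 := (tree_wt (P := P) hu hG h (x ∘ π)).1
    have h2 := hfew true x hx
    have h4 : (M : ℤ) * (8 * (h + 1)) ≤ wt (x ∘ π) :=
      (mul_le_mul_of_nonneg_left hV (Nat.cast_nonneg _)).trans h1
    have h6 : M * (8 * (h + 1)) ≤ wt (x ∘ π) := by exact_mod_cast h4
    have h7 : 2 * (M * (8 * (h + 1))) = m := by
      rw [hn']
      ring
    have h8 : 0 < M * (8 * (h + 1)) := by positivity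
    have h9 : wt (x ∘ π) = (Finset.univ.filter fun j => (x ∘ π) j = true).card := rfl
    omega

theorem upper : ∃ (C : ℝ) (κ : ℕ), ∀ n : ℕ, 1 ≤ n →
    ∃ (d : ℕ) (f : (Fin n → Bool) → ℝ), (d : ℝ) ≤ C * √n * (1 + Real.log n) ^ κ ∧
      f ∈ H87AM.Deg (Fin n) d ∧
      (∀ x, f x ∈ Set.Icc (-1:ℝ) (-(7/8)) ∪ Set.Icc (7/8) 1) ∧
      (∀ x, 4 * H87AM.cnt false x ≤ n → 7/8 ≤ f x) ∧
      (∀ x, 4 * H87AM.cnt true x ≤ n → f x ≤ -(7/8)) := by
  obtain ⟨κ, hκ⟩ := numeric
  refine ⟨16000 * 6 ^ κ, κ, fun n hn => ?_⟩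
  -- the height
  obtain ⟨h, hh1, hh2⟩ : ∃ h : ℕ, 8 * n ≤ 2 ^ h ∧ 2 ^ h ≤ 16 * n := by
    refine ⟨Nat.clog 2 (8 * n), Nat.le_pow_clog (by norm_num) _, ?_⟩
    have h1 := Nat.pow_pred_clog_lt_self (b := 2) (by norm_num) (show 1 < 8 * n by omega)
    have h2 : 0 < Nat.clog 2 (8 * n) := Nat.clog_pos (by norm_num) (by omega)
    obtain ⟨k, hk⟩ : ∃ k, Nat.clog 2 (8 * n) = k + 1 := ⟨Nat.clog 2 (8 * n) - 1, by omega⟩
    rw [hk] at h1 ⊢
    rw [Nat.pred_succ] at h1
    rw [pow_succ]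
    omega
  obtain ⟨J, P, G, hG, hP, hN, hc⟩ := hκ h
  have hP1 : 1 ≤ P := by
    rw [hP]
    exact Nat.one_le_iff_ne_zero.2 (mul_ne_zero (by omega)
      (Finset.prod_ne_zero_iff.2 fun i _ => by have := hG i; omega))
  have hu : 1 ≤ 2 ^ J := Nat.one_le_two_pow
  have hcst : cst (tree (2 ^ J) P G h) 1 ≤ 3 * (2 ^ J * P) * √2 ^ h := by
    refine hc (fun j t => cst (tree (2 ^ J) P G j) t) (fun j t => cst_nonneg t) (fun j d hd => ?_)
      (fun i s d hl hd => ?_) (fun j t ht => ?_) ?_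
    · exact cst_step (tree_bdd hu hG j) (hG j) hd
    · exact cst_dd (tree_bdd hu hG i) hl hd
    · exact tree_fl hu hP1 hG ht
    · refine cst_le (by positivity) ?_
      have h1 := base_cost (u := 2 ^ J) (P := P) (le_refl 1)
      push_cast at h1
      exact h1
  have hN1 : (1 : ℝ) ≤ 2 ^ J * P := by
    have : 1 ≤ 2 ^ J * P := Nat.one_le_iff_ne_zero.2 (mul_ne_zero (by positivity) (by omega))
    exact_mod_cast this
  have hs : (1 : ℝ) ≤ √2 ^ h := one_le_pow₀ (Real.one_le_sqrt.2 (by norm_num))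
  have hW : Cost (tree (2 ^ J) P G h) 1 (4 * (2 ^ J * P) * √2 ^ h) := by
    refine Cost.of_cst_lt le_rfl (lt_of_le_of_lt hcst ?_)
    have : 0 < (2 ^ J * P : ℝ) * √2 ^ h := by positivity
    nlinarith
  obtain ⟨F, hF, hF1, hF2⟩ := exists_fun n hn h J P G hh1 hG hP hW
  have hW1 : (1 : ℝ) ≤ 4 * (2 ^ J * P) * √2 ^ h := by nlinarith
  obtain ⟨d, f, hd, hf, hf1, hf2⟩ := exists_poly F hW1 hF
  refine ⟨d, f, ?_, hf, fun x => ?_, fun x hx => (hf1 x (hF1 x hx)).1, fun x hx => (hf2 x (hF2 x hx)).2⟩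
  · -- numbers
    have hn0 : (1 : ℝ) ≤ n := by exact_mod_cast hn
    have hsq : √2 ^ h ≤ 4 * √n := by
      have h1 : (√2 ^ h) ^ 2 ≤ (4 * √n) ^ 2 := by
        rw [← pow_mul, mul_comm h 2, pow_mul, Real.sq_sqrt (by norm_num), mul_pow, Real.sq_sqrt (by positivity)]
        have : (2 : ℝ) ^ h ≤ 16 * n := by exact_mod_cast hh2
        linarith
      exact le_of_sq_le_sq h1 (by positivity)
    have hlog : ((h + 2 : ℕ) : ℝ) ≤ 6 * (1 + Real.log n) := by
      have h1 : (h : ℝ) * Real.log 2 ≤ Real.log (16 * n) := by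
        rw [← Real.log_pow]
        exact Real.log_le_log (by positivity) (by exact_mod_cast hh2)
      have h2 : Real.log (16 * n) = 4 * Real.log 2 + Real.log n := by
        rw [Real.log_mul (by norm_num) (by positivity), show (16 : ℝ) = 2 ^ 4 by norm_num, Real.log_pow]
        norm_num
      have h3 : (0.6931471803 : ℝ) < Real.log 2 := Real.log_two_gt_d9
      have h4 : 0 ≤ Real.log n := Real.log_nonneg hn0
      push_cast
      nlinarith
    have hN2 : (2 ^ J * P : ℝ) ≤ (6 * (1 + Real.log n)) ^ κ := by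
      have h1 : ((2 ^ J * P : ℕ) : ℝ) ≤ ((h + 2 : ℕ) : ℝ) ^ κ := by exact_mod_cast hN
      push_cast at h1
      refine h1.trans (pow_le_pow_left₀ (by positivity) ?_ κ)
      push_cast at hlog
      exact hlog
    have hl0 : 0 ≤ Real.log n := Real.log_nonneg hn0
    calc (d : ℝ) ≤ 1000 * (4 * (2 ^ J * P) * √2 ^ h) := hd
      _ = 4000 * ((2 ^ J * P) * √2 ^ h) := by ring
      _ ≤ 4000 * ((6 * (1 + Real.log n)) ^ κ * (4 * √n)) := by
        refine mul_le_mul_of_nonneg_left (mul_le_mul hN2 hsq (by positivity) (by positivity)) (by norm_num)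
      _ = _ := by rw [mul_pow]; ring
  · cases hx : F x with
    | true => exact Or.inr ⟨(hf1 x hx).1, (hf1 x hx).2⟩
    | false => exact Or.inl ⟨(hf2 x hx).1, (hf2 x hx).2⟩

end H8AP
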